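import Mathlib

/-!
Interval algebras of linear orders as algebras of sets.
-/

namespace Pool.Agent.W5h78.IA

open Set symmDiff

section intal

variable {β : Type} [LinearOrder β]

/-- The elements of the interval algebra of a linear order. -/
def IsIntal (X : Set β) : Prop := ∃ S : Finset β, ∃ b : Bool,
  X = {x : β | Xor (b = true) (Odd (S.filter (fun s => s ≤ x)).card)}

theorem isIntal_empty : IsIntal (∅ : Set β) := ⟨∅, false, by ext x; simp [Xor]⟩

theorem isIntal_univ : IsIntal (univ : Set β) := ⟨∅, true, by ext x; simp [Xor]⟩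

theorem IsIntal.compl {X : Set β} (h : IsIntal X) : IsIntal Xᶜ := by
  obtain ⟨S, b, rfl⟩ := h
  refine ⟨S, !b, ?_⟩
  ext x
  show ¬ Xor (b = true) (Odd (S.filter (fun s => s ≤ x)).card) ↔
    Xor ((!b) = true) (Odd (S.filter (fun s => s ≤ x)).card)
  generalize Odd (S.filter (fun s => s ≤ x)).card = p
  cases b <;> simp [Xor]

theorem card_insert {S : Finset β} {s : β} (hs : s ∉ S) (x : β) :
    Odd ((insert s S).filter (fun s => s ≤ x)).card ↔
      Xor (s ≤ x) (Odd (S.filter (fun s => s ≤ x)).card) := by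
  rw [Finset.filter_insert]
  by_cases h : s ≤ x
  · rw [if_pos h, Finset.card_insert_of_notMem (by simp [hs]), Nat.odd_add_one]
    unfold Xor
    tauto
  · rw [if_neg h]
    unfold Xor
    tauto

theorem IsIntal.symmDiff_Ici {X : Set β} (h : IsIntal X) (s : β) : IsIntal (X ∆ Ici s) := by
  obtain ⟨S, b, rfl⟩ := h
  by_cases hs : s ∈ S
  · refine ⟨S.erase s, b, ?_⟩
    ext x
    have h1 := card_insert (S := S.erase s) (s := s) (by simp) x
    rw [Finset.insert_erase hs] at h1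
    rw [Set.mem_symmDiff]
    simp only [Set.mem_ofPred_eq, mem_Ici, h1]
    by_cases h2 : s ≤ x <;>
      by_cases h3 : Odd ((S.erase s).filter (fun s => s ≤ x)).card <;> cases b <;> simp [h2, h3, Xor]
  · refine ⟨insert s S, b, ?_⟩
    ext x
    have h1 := card_insert hs x
    rw [Set.mem_symmDiff]
    simp only [Set.mem_ofPred_eq, mem_Ici, h1]
    by_cases h2 : s ≤ x <;>
      by_cases h3 : Odd (S.filter (fun s => s ≤ x)).card <;> cases b <;> simp [h2, h3, Xor]

theorem IsIntal.induction {P : Set β → Prop} (h0 : P ∅) (h1 : P univ)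
    (hs : ∀ X s, P X → P (X ∆ Ici s)) : ∀ X, IsIntal X → P X := by
  rintro _ ⟨S, b, rfl⟩
  induction S using Finset.induction_on with
  | empty =>
    cases b
    · convert h0 using 1; ext x; simp [Xor]
    · convert h1 using 1; ext x; simp [Xor]
  | insert s S hsS ih =>
    convert hs _ s ih using 1
    ext x
    have h1 := card_insert hsS x
    rw [Set.mem_symmDiff]
    simp only [Set.mem_ofPred_eq, mem_Ici, h1]
    by_cases h2 : s ≤ x <;>
      by_cases h3 : Odd (S.filter (fun s => s ≤ x)).card <;> cases b <;> simp [h2, h3, Xor]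

theorem isIntal_Ici (s : β) : IsIntal (Ici s) := by
  have := isIntal_empty.symmDiff_Ici s
  have h2 : (∅ : Set β) ∆ Ici s = Ici s := by ext x; rw [Set.mem_symmDiff]; simp
  rwa [h2] at this

theorem IsIntal.symmDiff {X Y : Set β} (hX : IsIntal X) (hY : IsIntal Y) : IsIntal (X ∆ Y) := by
  refine IsIntal.induction (P := fun Y => IsIntal (X ∆ Y)) ?_ ?_ ?_ Y hY
  · have : X ∆ (∅ : Set β) = X := by ext x; rw [Set.mem_symmDiff]; simp
    rw [this]; exact hX
  · have : X ∆ (univ : Set β) = Xᶜ := by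
      ext x; rw [Set.mem_symmDiff]; simp
    rw [this]; exact hX.compl
  · intro Z s hZ
    rw [← symmDiff_assoc]
    exact hZ.symmDiff_Ici s

theorem IsIntal.Ici_inter {Y : Set β} (hY : IsIntal Y) (s : β) : IsIntal (Ici s ∩ Y) := by
  refine IsIntal.induction (P := fun Y => IsIntal (Ici s ∩ Y)) ?_ ?_ ?_ Y hY
  · simpa using isIntal_empty
  · simpa using isIntal_Ici s
  · intro Z t hZ
    have : Ici s ∩ (Z ∆ Ici t) = (Ici s ∩ Z) ∆ Ici (max s t) := by
      ext x
      simp only [mem_inter_iff, Set.mem_symmDiff, mem_Ici, max_le_iff]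
      tauto
    rw [this]
    exact hZ.symmDiff_Ici _

theorem IsIntal.inter {X Y : Set β} (hX : IsIntal X) (hY : IsIntal Y) : IsIntal (X ∩ Y) := by
  refine IsIntal.induction (P := fun X => IsIntal (X ∩ Y)) ?_ ?_ ?_ X hX
  · simpa using isIntal_empty
  · simpa using hY
  · intro Z s hZ
    have : (Z ∆ Ici s) ∩ Y = (Z ∩ Y) ∆ (Ici s ∩ Y) := by
      ext x
      simp only [mem_inter_iff, Set.mem_symmDiff]
      tauto
    rw [this]
    exact hZ.symmDiff (hY.Ici_inter s)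

theorem IsIntal.union {X Y : Set β} (hX : IsIntal X) (hY : IsIntal Y) : IsIntal (X ∪ Y) := by
  have : X ∪ Y = (Xᶜ ∩ Yᶜ)ᶜ := by
    ext x; simp only [mem_union, mem_compl_iff, mem_inter_iff]; tauto
  rw [this]
  exact (hX.compl.inter hY.compl).compl

theorem isIntal_singleton {a b : β} (h : a ⋖ b) : IsIntal ({a} : Set β) := by
  have : ({a} : Set β) = Ici a ∆ Ici b := by
    ext x
    rw [Set.mem_symmDiff]
    simp only [mem_singleton_iff, mem_Ici, not_le]
    constructor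
    · rintro rfl; exact Or.inl ⟨le_rfl, h.1⟩
    · rintro (⟨h1, h2⟩ | ⟨h1, h2⟩)
      · rcases h1.lt_or_eq with h3 | h3
        · exact absurd h2 (h.2 h3)
        · exact h3.symm
      · exact absurd (h.1.trans_le h1) (not_lt.2 h2.le)
  rw [this]
  exact (isIntal_Ici a).symmDiff_Ici b

/-- the elements with an immediate successor -/
def HasSucc (β : Type) [LinearOrder β] : Set β := {x | ∃ y, x ⋖ y}

theorem isIntal_finite {F : Set β} (hF : F.Finite) (h : F ⊆ HasSucc β) : IsIntal F := by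
  induction F, hF using Set.Finite.induction_on with
  | empty => exact isIntal_empty
  | @insert a s ha hs ih =>
    rw [Set.insert_eq]
    obtain ⟨b, hb⟩ := h (Set.mem_insert a s)
    exact (isIntal_singleton hb).union (ih ((Set.subset_insert a s).trans h))

end intal

/-- Linear orders whose interval algebra is the algebra of the order `ω · (1 + 1 + η)`. -/
structure Good (β : Type) [LinearOrder β] : Prop where
  fin : ∀ x : β, {a | a ∈ HasSucc β ∧ a < x}.Finite
  inf : (HasSucc β).Infinite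
  next : ∀ x : β, ∃ q, q ∉ HasSucc β ∧ x ≤ q ∧ ∀ q', q' ∉ HasSucc β → x ≤ q' → q ≤ q'
  bot : ∃ m : β, ∀ x, m ≤ x

section transfer

variable {β : Type} [LinearOrder β] {γ : Type} [LinearOrder γ]

theorem transfer_aux (hβ : Good β) (hγ : Good γ) (h : β ≃ γ)
    (hA : ∀ x, x ∈ HasSucc β ↔ h x ∈ HasSucc γ)
    (hQ : ∀ q q', q ∉ HasSucc β → q' ∉ HasSucc β → (q ≤ q' ↔ h q ≤ h q')) :
    ∀ X, IsIntal X → IsIntal (h '' X) := by
  have claim1 : ∀ F : Set β, F.Finite → F ⊆ HasSucc β → IsIntal (h '' F) := by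
    intro F hF h1
    refine isIntal_finite (hF.image h) ?_
    rintro _ ⟨x, hx, rfl⟩
    exact (hA x).1 (h1 hx)
  have claim2 : ∀ q, q ∉ HasSucc β → IsIntal (h '' Ici q) := by
    intro q hq
    have h2 : IsIntal ((h '' Ici q) ∆ Ici (h q)) := by
      refine isIntal_finite ?_ ?_
      · refine ((hγ.fin (h q)).union ((hβ.fin q).image h)).subset ?_
        intro y hy
        obtain ⟨x, rfl⟩ := h.surjective y
        rw [Set.mem_symmDiff, h.injective.mem_set_image, mem_Ici, mem_Ici] at hy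
        by_cases hx : x ∈ HasSucc β
        · rcases hy with ⟨h3, h4⟩ | ⟨h3, h4⟩
          · exact Or.inl ⟨(hA x).1 hx, not_le.1 h4⟩
          · exact Or.inr ⟨x, ⟨hx, not_le.1 h4⟩, rfl⟩
        · exfalso
          have := hQ q x hq hx
          tauto
      · intro y hy
        obtain ⟨x, rfl⟩ := h.surjective y
        rw [Set.mem_symmDiff, h.injective.mem_set_image, mem_Ici, mem_Ici] at hy
        by_cases hx : x ∈ HasSucc β
        · exact (hA x).1 hx
        · exfalso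
          have := hQ q x hq hx
          tauto
    have h3 := h2.symmDiff_Ici (h q)
    rwa [symmDiff_symmDiff_cancel_right] at h3
  have claim3 : ∀ s, IsIntal (h '' Ici s) := by
    intro s
    obtain ⟨q, hq, hsq, hmin⟩ := hβ.next s
    have h3 : Ici s = Ici q ∪ {x | s ≤ x ∧ x < q} := by
      ext x
      simp only [mem_Ici, mem_union, Set.mem_ofPred_eq]
      constructor
      · intro h4
        rcases le_or_gt q x with h5 | h5
        · exact Or.inl h5
        · exact Or.inr ⟨h4, h5⟩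
      · rintro (h4 | ⟨h4, -⟩)
        · exact hsq.trans h4
        · exact h4
    have h4 : {x | s ≤ x ∧ x < q} ⊆ HasSucc β := by
      rintro x ⟨h5, h6⟩
      by_contra hx
      exact absurd (hmin x hx h5) (not_le.2 h6)
    rw [h3, Set.image_union]
    refine (claim2 q hq).union (claim1 _ ?_ h4)
    exact (hβ.fin q).subset fun x hx => ⟨h4 hx, hx.2⟩
  refine IsIntal.induction (P := fun X => IsIntal (h '' X)) ?_ ?_ ?_
  · simpa using isIntal_empty
  · rw [Set.image_univ, h.surjective.range_eq]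
    exact isIntal_univ
  · intro X s hX
    rw [Set.image_symmDiff h.injective]
    exact hX.symmDiff (claim3 s)

end transfer

section cantor

variable {β : Type} [LinearOrder β]

/-- a finite set of elements below some element with an element above a given one gives a
successor -/
theorem exists_succ_of_finite {x y : β} (hxy : x < y) (hf : (Ioo x y).Finite) :
    x ∈ HasSucc β := by
  have hf' : (Ioc x y).Finite := by
    have : Ioc x y ⊆ Ioo x y ∪ {y} := by
      intro z hz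
      rcases hz.2.lt_or_eq with h | h
      · exact Or.inl ⟨hz.1, h⟩
      · exact Or.inr h
    exact (hf.union (finite_singleton y)).subset this
  obtain ⟨z, hz, hmin⟩ := hf'.exists_minimal ⟨y, hxy, le_rfl⟩
  refine ⟨z, hz.1, fun w hw1 hw2 => ?_⟩
  have := hmin (y := w) ⟨hw1, hw2.le.trans hz.2⟩ hw2.le
  exact absurd hw2 (not_lt.2 this)

theorem Good.dense (h : Good β) {q q' : β} (hq : q ∉ HasSucc β) (hlt : q < q') :
    ∃ r, r ∉ HasSucc β ∧ q < r ∧ r < q' := by
  by_contra hcon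
  push Not at hcon
  apply hq
  refine exists_succ_of_finite hlt ((h.fin q').subset ?_)
  rintro x ⟨h1, h2⟩
  refine ⟨?_, h2⟩
  by_contra hx
  exact absurd h2 (not_lt.2 (hcon x hx h1))

theorem Good.nomax (h : Good β) (q : β) : ∃ r, r ∉ HasSucc β ∧ q < r := by
  obtain ⟨a, ha, ha2⟩ : ∃ a, a ∈ HasSucc β ∧ ¬ (a < q ∨ a = q) := by
    by_contra hcon
    push Not at hcon
    apply h.inf
    refine ((h.fin q).union (finite_singleton q)).subset ?_
    intro a ha
    by_cases h1 : a < q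
    · exact Or.inl ⟨ha, h1⟩
    · exact Or.inr ((hcon a ha).resolve_left h1)
  push Not at ha2
  have hlt : q < a := lt_of_le_of_ne ha2.1 (fun h => ha2.2 h.symm)
  obtain ⟨r, hr, har, -⟩ := h.next a
  exact ⟨r, hr, hlt.trans_le har⟩

theorem Good.min (h : Good β) : ∃ q, q ∉ HasSucc β ∧ ∀ q', q' ∉ HasSucc β → q ≤ q' := by
  obtain ⟨m, hm⟩ := h.bot
  obtain ⟨q, h1, -, h3⟩ := h.next m
  exact ⟨q, h1, fun q' h4 => h3 q' h4 (hm q')⟩

variable {γ : Type} [LinearOrder γ]

theorem Good.iso (hβ : Good β) (hγ : Good γ) [Countable β] [Countable γ] :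
    ∃ f : {x : β // x ∉ HasSucc β} ≃ {x : γ // x ∉ HasSucc γ}, ∀ q q', q ≤ q' ↔ f q ≤ f q' := by
  classical
  obtain ⟨q0, hq0, hq0'⟩ := hβ.min
  obtain ⟨r0, hr0, hr0'⟩ := hγ.min
  have key : ∀ {δ : Type} [LinearOrder δ] (hδ : Good δ) (q0 : δ) (hq0 : q0 ∉ HasSucc δ)
      (hq0' : ∀ q', q' ∉ HasSucc δ → q0 ≤ q'),
      DenselyOrdered {x : δ // x ∉ HasSucc δ ∧ x ≠ q0} ∧
      NoMinOrder {x : δ // x ∉ HasSucc δ ∧ x ≠ q0} ∧
      NoMaxOrder {x : δ // x ∉ HasSucc δ ∧ x ≠ q0} ∧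
      Nonempty {x : δ // x ∉ HasSucc δ ∧ x ≠ q0} := by
    intro δ _ hδ q0 hq0 hq0'
    refine ⟨⟨?_⟩, ⟨?_⟩, ⟨?_⟩, ?_⟩
    · rintro ⟨a, ha, ha'⟩ ⟨b, hb, hb'⟩ hlt
      obtain ⟨r, hr, h1, h2⟩ := hδ.dense ha (show a < b from hlt)
      exact ⟨⟨r, hr, fun h => absurd (hq0' a ha) (not_le.2 (h ▸ h1))⟩, h1, h2⟩
    · rintro ⟨a, ha, ha'⟩
      obtain ⟨r, hr, h1, h2⟩ := hδ.dense hq0 (lt_of_le_of_ne (hq0' a ha) (Ne.symm ha'))
      exact ⟨⟨r, hr, h1.ne'⟩, h2⟩
    · rintro ⟨a, ha, ha'⟩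
      obtain ⟨r, hr, h1⟩ := hδ.nomax a
      exact ⟨⟨r, hr, ((hq0' a ha).trans_lt h1).ne'⟩, h1⟩
    · obtain ⟨r, hr, h1⟩ := hδ.nomax q0
      exact ⟨⟨r, hr, h1.ne'⟩⟩
  obtain ⟨i1, i2, i3, i4⟩ := key hβ q0 hq0 hq0'
  obtain ⟨j1, j2, j3, j4⟩ := key hγ r0 hr0 hr0'
  obtain ⟨e⟩ := Order.iso_of_countable_dense {x : β // x ∉ HasSucc β ∧ x ≠ q0}
    {x : γ // x ∉ HasSucc γ ∧ x ≠ r0}
  let f : {x : β // x ∉ HasSucc β} → {x : γ // x ∉ HasSucc γ} := fun x =>
    if h : x.1 = q0 then ⟨r0, hr0⟩ else ⟨(e ⟨x.1, x.2, h⟩).1, (e ⟨x.1, x.2, h⟩).2.1⟩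
  have hmono : StrictMono f := by
    rintro ⟨a, ha⟩ ⟨b, hb⟩ hlt
    have hlt' : a < b := hlt
    have hb0 : b ≠ q0 := ((hq0' a ha).trans_lt hlt').ne'
    by_cases ha0 : a = q0
    · have h1 : f ⟨a, ha⟩ = ⟨r0, hr0⟩ := by simp only [f]; rw [dif_pos ha0]
      have h2 : f ⟨b, hb⟩ = ⟨(e ⟨b, hb, hb0⟩).1, (e ⟨b, hb, hb0⟩).2.1⟩ := by
        simp only [f]; rw [dif_neg hb0]
      rw [h1, h2]
      show r0 < (e ⟨b, hb, hb0⟩).1
      exact lt_of_le_of_ne (hr0' _ (e ⟨b, hb, hb0⟩).2.1) (Ne.symm (e ⟨b, hb, hb0⟩).2.2)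
    · have h1 : f ⟨a, ha⟩ = ⟨(e ⟨a, ha, ha0⟩).1, (e ⟨a, ha, ha0⟩).2.1⟩ := by
        simp only [f]; rw [dif_neg ha0]
      have h2 : f ⟨b, hb⟩ = ⟨(e ⟨b, hb, hb0⟩).1, (e ⟨b, hb, hb0⟩).2.1⟩ := by
        simp only [f]; rw [dif_neg hb0]
      rw [h1, h2]
      show (e ⟨a, ha, ha0⟩) < (e ⟨b, hb, hb0⟩)
      exact e.strictMono hlt'
  have hsurj : Function.Surjective f := by
    rintro ⟨y, hy⟩
    by_cases hy0 : y = r0
    · refine ⟨⟨q0, hq0⟩, ?_⟩
      have : f ⟨q0, hq0⟩ = ⟨r0, hr0⟩ := by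
        show (if h : q0 = q0 then (⟨r0, hr0⟩ : {x : γ // x ∉ HasSucc γ}) else _) = _
        rw [dif_pos rfl]
      rw [this]
      exact Subtype.ext hy0.symm
    · refine ⟨⟨(e.symm ⟨y, hy, hy0⟩).1, (e.symm ⟨y, hy, hy0⟩).2.1⟩, ?_⟩
      simp only [f]
      rw [dif_neg (e.symm ⟨y, hy, hy0⟩).2.2]
      apply Subtype.ext
      show (e (e.symm ⟨y, hy, hy0⟩)).1 = y
      rw [OrderIso.apply_symm_apply]
  refine ⟨Equiv.ofBijective f ⟨hmono.injective, hsurj⟩, fun q q' => ?_⟩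
  exact hmono.le_iff_le.symm

/-- Two countable good orders have isomorphic interval algebras. -/
theorem Good.transfer (hβ : Good β) (hγ : Good γ) [Countable β] [Countable γ] :
    ∃ h : β ≃ γ, ∀ X, IsIntal X ↔ IsIntal (h '' X) := by
  classical
  obtain ⟨f, hf⟩ := hβ.iso hγ
  have : Infinite (HasSucc β) := hβ.inf.to_subtype
  have : Infinite (HasSucc γ) := hγ.inf.to_subtype
  obtain ⟨e⟩ : Nonempty (HasSucc β ≃ HasSucc γ) := nonempty_equiv_of_countable
  let h : β ≃ γ := (Equiv.Set.sumCompl (HasSucc β)).symm.trans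
    ((Equiv.sumCongr e (show ((HasSucc β)ᶜ : Set β) ≃ ((HasSucc γ)ᶜ : Set γ) from f)).trans
      (Equiv.Set.sumCompl (HasSucc γ)))
  have h1 : ∀ x (hx : x ∈ HasSucc β), h x = (e ⟨x, hx⟩ : γ) := by
    intro x hx
    simp only [h, Equiv.trans_apply]
    rw [Equiv.Set.sumCompl_symm_apply_of_mem hx]
    rfl
  have h2 : ∀ x (hx : x ∉ HasSucc β), h x = (f ⟨x, hx⟩ : γ) := by
    intro x hx
    simp only [h, Equiv.trans_apply]
    rw [Equiv.Set.sumCompl_symm_apply_of_notMem hx]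
    rfl
  have hA : ∀ x, x ∈ HasSucc β ↔ h x ∈ HasSucc γ := by
    intro x
    by_cases hx : x ∈ HasSucc β
    · rw [h1 x hx]; exact iff_of_true hx (e ⟨x, hx⟩).2
    · rw [h2 x hx]; exact iff_of_false hx (f ⟨x, hx⟩).2
  have hQ : ∀ q q', q ∉ HasSucc β → q' ∉ HasSucc β → (q ≤ q' ↔ h q ≤ h q') := by
    intro q q' hq hq'
    rw [h2 q hq, h2 q' hq']
    exact hf ⟨q, hq⟩ ⟨q', hq'⟩
  refine ⟨h, fun X => ⟨transfer_aux hβ hγ h hA hQ X, fun hX => ?_⟩⟩
  have h3 := transfer_aux hγ hβ h.symm (fun x => ?_) (fun q q' hq hq' => ?_) _ hX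
  · rwa [Equiv.symm_image_image] at h3
  · rw [hA (h.symm x), h.apply_symm_apply]
  · have h4 := hQ (h.symm q) (h.symm q') (by rw [hA, h.apply_symm_apply]; exact hq)
      (by rw [hA, h.apply_symm_apply]; exact hq')
    rw [h.apply_symm_apply, h.apply_symm_apply] at h4
    exact h4.symm

end cantor

end Pool.Agent.W5h78.IA
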