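import Mathlib
import Pool.Agent.W5h78.IA.Intal

/-!
The orders `∑ e, (b e + ∑ s ∈ V_e descending, (1 + η))`.
-/

namespace Pool.Agent.W5h78.IA

open Set

/-- The elements of the order: blocks of `b e` points and, for `s ∈ V_e`, dense pieces. -/
inductive El (b : ℕ → ℕ) (V : ℕ → ℕ → Prop) : Type
  | B (e j : ℕ) (h : j < b e) : El b V
  | R (e s : ℕ) (h : V e s) (q : ℚ≥0) : El b V

namespace El

variable {b : ℕ → ℕ} {V : ℕ → ℕ → Prop}

/-- the position of an element -/
def key : El b V → ℕ ×ₗ (ℕ ×ₗ (ℤ ×ₗ ℚ≥0))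
  | B e j _ => toLex (e, toLex (0, toLex ((j : ℤ), 0)))
  | R e s _ q => toLex (e, toLex (1, toLex (-(s : ℤ), q)))

theorem key_injective : Function.Injective (key : El b V → _) := by
  intro x y h
  cases x <;> cases y <;> simp only [key, EmbeddingLike.apply_eq_iff_eq, Prod.mk.injEq] at h
  · obtain ⟨rfl, -, h, -⟩ := h
    have := Int.natCast_inj.1 h
    subst this; rfl
  · exact absurd h.2.1 (by norm_num)
  · exact absurd h.2.1 (by norm_num)
  · obtain ⟨rfl, -, h, rfl⟩ := h
    have := Int.natCast_inj.1 (neg_injective h)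
    subst this; rfl

noncomputable instance : LinearOrder (El b V) := LinearOrder.lift' key key_injective

theorem lt_def (x y : El b V) : x < y ↔ key x < key y := Iff.rfl

theorem le_def (x y : El b V) : x ≤ y ↔ key x ≤ key y := Iff.rfl

theorem BB {e j e' j' : ℕ} {h : j < b e} {h' : j' < b e'} :
    (B e j h : El b V) < B e' j' h' ↔ e < e' ∨ (e = e' ∧ j < j') := by
  rw [lt_def]
  simp only [key, Prod.Lex.toLex_lt_toLex, lt_irrefl, Nat.cast_lt, and_false, or_false, false_or,
    true_and]

theorem BR {e j e' s : ℕ} {h : j < b e} {h' : V e' s} {q : ℚ≥0} :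
    (B e j h : El b V) < R e' s h' q ↔ e ≤ e' := by
  rw [lt_def]
  simp only [key, Prod.Lex.toLex_lt_toLex]
  rw [le_iff_lt_or_eq]
  simp

theorem RB {e j e' s : ℕ} {h : j < b e} {h' : V e' s} {q : ℚ≥0} :
    R e' s h' q < (B e j h : El b V) ↔ e' < e := by
  rw [lt_def]
  simp only [key, Prod.Lex.toLex_lt_toLex]
  simp

theorem RR {e s e' s' : ℕ} {h : V e s} {h' : V e' s'} {q q' : ℚ≥0} :
    (R e s h q : El b V) < R e' s' h' q' ↔
      e < e' ∨ (e = e' ∧ (s' < s ∨ (s = s' ∧ q < q'))) := by
  rw [lt_def]
  simp only [key, Prod.Lex.toLex_lt_toLex, lt_irrefl, false_or, true_and, neg_lt_neg_iff,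
    Nat.cast_lt, neg_inj, Nat.cast_inj]

/-- the piece of an element -/
def pc : El b V → ℕ
  | B e _ _ => e
  | R e _ _ _ => e

theorem pc_mono {x y : El b V} (h : x ≤ y) : pc x ≤ pc y := by
  rcases h.lt_or_eq with h | rfl
  · cases x <;> cases y <;> simp only [pc]
    · rw [BB] at h; omega
    · rw [BR] at h; omega
    · rw [RB] at h; omega
    · rw [RR] at h; omega
  · exact le_rfl

theorem lt_of_pc {x y : El b V} (h : pc x < pc y) : x < y := by
  cases x <;> cases y <;> simp only [pc] at h
  · rw [BB]; omega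
  · rw [BR]; omega
  · rw [RB]; omega
  · rw [RR]; omega

theorem B_lt_B {e j j' : ℕ} {h : j < b e} {h' : j' < b e} (hj : j < j') :
    (B e j h : El b V) < B e j' h' := BB.2 (Or.inr ⟨rfl, hj⟩)

theorem B_lt_R {e j s : ℕ} {h : j < b e} {h' : V e s} {q : ℚ≥0} :
    (B e j h : El b V) < R e s h' q := BR.2 le_rfl

theorem R_lt_R {e s : ℕ} {h h' : V e s} {q q' : ℚ≥0} (hq : q < q') :
    (R e s h q : El b V) < R e s h' q' := RR.2 (Or.inr ⟨rfl, Or.inr ⟨rfl, hq⟩⟩)

theorem R_lt_R' {e s s' : ℕ} {h : V e s} {h' : V e s'} {q q' : ℚ≥0} (hs : s' < s) :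
    (R e s h q : El b V) < R e s' h' q' := RR.2 (Or.inr ⟨rfl, Or.inl hs⟩)

/-- points of blocks which are not the last one have a successor -/
theorem cov_B {e j : ℕ} (h : j + 1 < b e) :
    (B e j (by omega) : El b V) ⋖ B e (j + 1) h := by
  refine ⟨B_lt_B (by omega), fun x h1 h2 => ?_⟩
  cases x with
  | B e' j' h' =>
    rw [BB] at h1 h2; omega
  | R e' s h' q =>
    rw [BR] at h1; rw [RB] at h2; omega

/-- the last point of a block has a successor if the dense part has a first element -/
theorem cov_last {e j s : ℕ} (hj : j + 1 = b e) (hs : V e s) (hmax : ∀ t, V e t → t ≤ s) :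
    (B e j (by omega) : El b V) ⋖ R e s hs 0 := by
  refine ⟨B_lt_R, fun x h1 h2 => ?_⟩
  cases x with
  | B e' j' h' =>
    rw [BB] at h1; rw [BR] at h2
    have : e' = e := by omega
    subst this
    omega
  | R e' t h' q =>
    rw [BR] at h1; rw [RR] at h2
    rcases h2 with h2 | ⟨rfl, h2 | ⟨rfl, h2⟩⟩
    · omega
    · have := hmax t h'
      omega
    · exact absurd h2 (not_lt.2 zero_le)

/-- points of dense pieces have no successor -/
theorem not_cov_R {e s : ℕ} {h : V e s} {q : ℚ≥0} (y : El b V) : ¬ R e s h q ⋖ y := by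
  intro hc
  have h1 := hc.1
  have h2 : ∀ q', q < q' → ¬ R e s h q' < y := fun q' hq' => hc.2 (R_lt_R hq')
  cases y with
  | B e' j' h' =>
    rw [RB] at h1
    exact h2 (q + 1) (lt_add_one q) (RB.2 h1)
  | R e' t h' q' =>
    rw [RR] at h1
    rcases h1 with h1 | ⟨rfl, h1 | ⟨rfl, h1⟩⟩
    · exact h2 (q + 1) (lt_add_one q) (RR.2 (Or.inl h1))
    · exact h2 (q + 1) (lt_add_one q) (RR.2 (Or.inr ⟨rfl, Or.inl h1⟩))
    · obtain ⟨r, hr1, hr2⟩ := exists_between h1
      exact h2 r hr1 (R_lt_R hr2)

/-- the last point of a block has no successor if the dense part has no first element -/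
theorem not_cov_last {e j : ℕ} {h : j < b e} (hj : j + 1 = b e) (h0 : ∀ e, V e 0)
    (hinf : ∀ s, ∃ t, s < t ∧ V e t) (y : El b V) : ¬ B e j h ⋖ y := by
  intro hc
  have h1 := hc.1
  cases y with
  | B e' j' h' =>
    rw [BB] at h1
    have h3 : e < e' := by
      rcases h1 with h1 | ⟨rfl, h1⟩
      · exact h1
      · omega
    exact hc.2 (c := R e 0 (h0 e) 0) B_lt_R (RB.2 h3)
  | R e' s h' q =>
    rw [BR] at h1
    obtain ⟨t, ht1, ht2⟩ := hinf s
    rcases h1.lt_or_eq with h3 | rfl
    · exact hc.2 (c := R e 0 (h0 e) 0) B_lt_R (RR.2 (Or.inl h3))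
    · exact hc.2 (c := R e t ht2 0) B_lt_R (R_lt_R' ht1)

variable (hb : ∀ e, 0 < b e) (h0 : ∀ e, V e 0)

include h0 in
theorem mem_hasSucc_iff (x : El b V) :
    x ∈ HasSucc (El b V) ↔
      ∃ e j, ∃ h : j < b e, x = B e j h ∧ (j + 1 < b e ∨ ¬ ∀ s, ∃ t, s < t ∧ V e t) := by
  classical
  constructor
  · rintro ⟨y, hy⟩
    cases x with
    | B e j h =>
      refine ⟨e, j, h, rfl, ?_⟩
      by_contra hcon
      push Not at hcon
      exact not_cov_last (by omega) h0 hcon.2 y hy
    | R e s h q => exact absurd hy (not_cov_R y)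
  · rintro ⟨e, j, h, rfl, h1 | h1⟩
    · exact ⟨_, cov_B h1⟩
    · by_cases h2 : j + 1 < b e
      · exact ⟨_, cov_B h2⟩
      · have hj : j + 1 = b e := by omega
        push Not at h1
        obtain ⟨s, hs⟩ := h1
        have hfin : {t | V e t}.Finite :=
          (Set.finite_Iic s).subset fun t ht => by
            by_contra h3
            exact hs t (not_le.1 h3) ht
        obtain ⟨m, hm, hmax⟩ := hfin.exists_maximal ⟨0, h0 e⟩
        refine ⟨R e m hm 0, cov_last hj hm fun t ht => ?_⟩
        rcases le_total t m with h3 | h3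
        · exact h3
        · exact hmax ht h3

include hb h0 in
theorem good (hinf : ∀ e, 1 < b e ∨ ¬ ∀ s, ∃ t, s < t ∧ V e t) : Good (El b V) := by
  classical
  refine ⟨fun x => ?_, ?_, fun x => ?_, ⟨B 0 0 (hb 0), fun x => ?_⟩⟩
  · have hf : (⋃ e ∈ Set.Iic (pc x), Set.range fun j : Fin (b e) => (B e j j.2 : El b V)).Finite :=
      (Set.finite_Iic (pc x)).biUnion fun e _ => Set.finite_range _
    refine hf.subset ?_
    rintro a ⟨ha, hax⟩
    obtain ⟨e, j, h, rfl, -⟩ := (mem_hasSucc_iff h0 a).1 ha
    simp only [Set.mem_iUnion]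
    exact ⟨e, pc_mono hax.le, ⟨j, h⟩, rfl⟩
  · refine Set.infinite_of_injective_forall_mem (f := fun e => (B e 0 (hb e) : El b V)) ?_ ?_
    · intro e e' h
      simp only [B.injEq] at h
      exact h.1
    · intro e
      exact (mem_hasSucc_iff h0 _).2 ⟨e, 0, hb e, rfl, hinf e⟩
  · by_cases hx : x ∈ HasSucc (El b V)
    · obtain ⟨e, j, h, rfl, -⟩ := (mem_hasSucc_iff h0 x).1 hx
      by_cases hi : ∀ s, ∃ t, s < t ∧ V e t
      · -- the last point of the block
        have hlast : b e - 1 < b e := by omega
        refine ⟨B e (b e - 1) hlast, ?_, ?_, ?_⟩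
        · rw [mem_hasSucc_iff h0]
          rintro ⟨e', j', h', h1, h2⟩
          simp only [B.injEq] at h1
          obtain ⟨rfl, rfl⟩ := h1
          rcases h2 with h2 | h2
          · omega
          · exact h2 hi
        · rcases (show j ≤ b e - 1 by omega).lt_or_eq with h1 | h1
          · exact (B_lt_B h1).le
          · subst h1; exact le_rfl
        · intro q' hq' hle
          by_contra hcon
          push Not at hcon
          apply hq'
          have h3 : pc q' = e := le_antisymm (pc_mono hcon.le) (pc_mono hle)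
          cases q' with
          | B e' j' h' =>
            simp only [pc] at h3
            subst h3
            rw [BB] at hcon
            exact (mem_hasSucc_iff h0 _).2 ⟨e', j', h', rfl, Or.inl (by omega)⟩
          | R e' s h' q =>
            simp only [pc] at h3
            subst h3
            rw [RB] at hcon
            omega
      · have hi' := hi
        push Not at hi'
        obtain ⟨s, hs⟩ := hi'
        have hfin : {t | V e t}.Finite :=
          (Set.finite_Iic s).subset fun t ht => by
            by_contra h3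
            exact hs t (not_le.1 h3) ht
        obtain ⟨m, hm, hmax⟩ := hfin.exists_maximal ⟨0, h0 e⟩
        have hmax' : ∀ t, V e t → t ≤ m := fun t ht => by
          rcases le_total t m with h3 | h3
          · exact h3
          · exact hmax ht h3
        refine ⟨R e m hm 0, fun ⟨y, hy⟩ => not_cov_R y hy, B_lt_R.le, ?_⟩
        intro q' hq' hle
        by_contra hcon
        push Not at hcon
        have h3 : pc q' = e := le_antisymm (pc_mono hcon.le) (pc_mono hle)
        cases q' with
        | B e' j' h' =>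
          simp only [pc] at h3
          subst h3
          exact hq' ((mem_hasSucc_iff h0 _).2 ⟨e', j', h', rfl, Or.inr hi⟩)
        | R e' s h' q =>
          simp only [pc] at h3
          subst h3
          rw [RR] at hcon
          rcases hcon with h4 | ⟨-, h4 | ⟨rfl, h4⟩⟩
          · omega
          · have := hmax' s h'; omega
          · exact absurd h4 (not_lt.2 zero_le)
    · exact ⟨x, hx, le_rfl, fun q' _ h => h⟩
  · by_cases h1 : 0 < pc x
    · exact (lt_of_pc (x := B 0 0 (hb 0)) h1).le
    · cases x with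
      | B e j h =>
        have : e = 0 := by simp only [pc] at h1; omega
        subst this
        rcases Nat.eq_zero_or_pos j with rfl | hj
        · exact le_rfl
        · exact (B_lt_B hj).le
      | R e s h q =>
        have : e = 0 := by simp only [pc] at h1; omega
        subst this
        exact B_lt_R.le

end El

end Pool.Agent.W5h78.IA
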