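import Mathlib
import Pool.Agent.W5h78.IA.Order

/-!
The sizes of the blocks of the orders.
-/

namespace Pool.Agent.W5h78.IA

open Set

namespace El

variable {V : ℕ → ℕ → Prop}

/-- the size of the `e`-th block -/
def bs (e : ℕ) : ℕ := 2 * e + 2

theorem hb (e : ℕ) : 0 < bs e := by unfold bs; omega

/-- an infinite family of points inside an open interval -/
theorem not_finite_Ioo {x y : El bs V} {e s : ℕ} (h : V e s)
    (h1 : ∀ q : ℚ≥0, x < R e s h q) (h2 : ∀ q : ℚ≥0, R e s h q < y) : ¬ (Ioo x y).Finite := by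
  intro hf
  have : (Set.range fun q : ℚ≥0 => (R e s h q : El bs V)).Finite :=
    hf.subset (by rintro _ ⟨q, rfl⟩; exact ⟨h1 q, h2 q⟩)
  refine Set.infinite_range_of_injective (f := fun q : ℚ≥0 => (R e s h q : El bs V)) ?_ this
  intro q q' hq
  simpa using hq

theorem not_finite_Ioo' {x : El bs V} {e s : ℕ} (h : V e s) {q : ℚ≥0} (hq : 0 < q)
    (h1 : ∀ q : ℚ≥0, x < R e s h q) : ¬ (Ioo x (R e s h q)).Finite := by
  intro hf
  have h3 : (Set.range fun n : ℕ => (R e s h (q * (1 / ((n : ℚ≥0) + 2))) : El bs V)).Finite := by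
    refine hf.subset ?_
    rintro _ ⟨n, rfl⟩
    refine ⟨h1 _, R_lt_R ?_⟩
    have h4 : (1 : ℚ≥0) / ((n : ℚ≥0) + 2) < 1 := by
      rw [div_lt_one (by positivity)]
      have : (0 : ℚ≥0) ≤ (n : ℚ≥0) := zero_le
      calc (1 : ℚ≥0) < 2 := by norm_num
        _ ≤ (n : ℚ≥0) + 2 := le_add_of_nonneg_left this
    calc q * (1 / ((n : ℚ≥0) + 2)) < q * 1 := by
          exact mul_lt_mul_of_pos_left h4 hq
      _ = q := mul_one q
  refine Set.infinite_range_of_injective
    (f := fun n : ℕ => (R e s h (q * (1 / ((n : ℚ≥0) + 2))) : El bs V)) ?_ h3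
  intro n m hnm
  simp only [R.injEq, true_and] at hnm
  have h5 : (1 : ℚ≥0) / ((n : ℚ≥0) + 2) = 1 / ((m : ℚ≥0) + 2) := mul_left_cancel₀ hq.ne' hnm
  have h6 : ((n : ℚ≥0) + 2) = ((m : ℚ≥0) + 2) := by
    have := congrArg (fun z : ℚ≥0 => z⁻¹) h5
    simpa using this
  have h7 := add_right_cancel h6
  exact_mod_cast h7

theorem ncard_block {e k : ℕ} (hk : k < bs e) :
    ((fun j : ℕ => if h : j < bs e then (B e j h : El bs V) else B e 0 (hb e)) ''
      (Set.Ioo 0 k)).ncard = k - 1 := by
  rw [Set.InjOn.ncard_image]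
  · rw [← Finset.coe_Ioo, Set.ncard_coe_finset, Nat.card_Ioo]
    omega
  · intro i hi j hj hij
    have h1 : i < bs e := lt_trans hi.2 hk
    have h2 : j < bs e := lt_trans hj.2 hk
    simp only at hij
    rw [dif_pos h1, dif_pos h2] at hij
    simpa using hij

theorem Ioo_BB {e k : ℕ} (hk : k < bs e) : Ioo (B e 0 (hb e) : El bs V) (B e k hk) =
    (fun j : ℕ => if h : j < bs e then (B e j h : El bs V) else B e 0 (hb e)) ''
      (Set.Ioo 0 k) := by
  ext x
  constructor
  · rintro ⟨h1, h2⟩
    cases x with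
    | B e' j h =>
      rw [BB] at h1 h2
      have : e' = e := by omega
      subst this
      exact ⟨j, ⟨by omega, by omega⟩, by simp only; rw [dif_pos h]⟩
    | R e' s h q =>
      rw [BR] at h1; rw [RB] at h2; omega
  · rintro ⟨j, ⟨h1, h2⟩, rfl⟩
    have h3 : j < bs e := h2.trans hk
    simp only
    rw [dif_pos h3]
    exact ⟨B_lt_B h1, B_lt_B h2⟩

theorem Ioo_BR {e s : ℕ} (h : V e s) (hmax : ∀ t, V e t → t ≤ s) :
    Ioo (B e 0 (hb e) : El bs V) (R e s h 0) =
    Ioo (B e 0 (hb e) : El bs V) (B e (2 * e + 1) (by unfold bs; omega)) ∪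
      {B e (2 * e + 1) (by unfold bs; omega)} := by
  ext x
  constructor
  · rintro ⟨h1, h2⟩
    cases x with
    | B e' j hj' =>
      rw [BB] at h1; rw [BR] at h2
      have : e' = e := by omega
      subst this
      by_cases hj : j = 2 * e' + 1
      · subst hj; exact Or.inr rfl
      · refine Or.inl ⟨B_lt_B (by omega), B_lt_B ?_⟩
        unfold bs at hj'; omega
    | R e' t h' q =>
      rw [BR] at h1; rw [RR] at h2
      exfalso
      rcases h2 with h2 | ⟨rfl, h2 | ⟨rfl, h2⟩⟩
      · omega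
      · have := hmax t h'; omega
      · exact absurd h2 (not_lt.2 zero_le)
  · rintro (⟨h1, h2⟩ | h1)
    · exact ⟨h1, h2.trans B_lt_R⟩
    · rw [Set.mem_singleton_iff] at h1
      subst h1
      exact ⟨B_lt_B (by omega), B_lt_R⟩

theorem not_cov_B0 (h0 : ∀ e, V e 0) {e : ℕ} (z : El bs V) : ¬ z ⋖ B e 0 (hb e) := by
  intro hc
  have h1 := hc.1
  cases z with
  | B e' j h =>
    rw [BB] at h1
    have h2 : e' < e := by omega
    exact hc.2 (c := R e' 0 (h0 e') 0) B_lt_R (RB.2 h2)
  | R e' s h q =>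
    exact not_cov_R _ hc

/-- There is a maximal finite block with exactly `2e + 2` elements iff `V_e` is infinite. -/
theorem block_iff (h0 : ∀ e, V e 0) (e : ℕ) :
    (∃ x y : El bs V, x < y ∧ (Ioo x y).Finite ∧ (Ioo x y).ncard = 2 * e ∧
      (∀ z, ¬ z ⋖ x) ∧ (∀ z, ¬ y ⋖ z)) ↔ ∀ s, ∃ t, s < t ∧ V e t := by
  constructor
  · rintro ⟨x, y, hxy, hf, hc, hx, hy⟩
    obtain ⟨e', j, h, rfl, -⟩ := (mem_hasSucc_iff h0 x).1 (exists_succ_of_finite hxy hf)
    have hj : j = 0 := by
      by_contra hj
      have h1 := cov_B (V := V) (b := bs) (e := e') (j := j - 1) (by omega)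
      have h2 : (B e' (j - 1 + 1) (by omega) : El bs V) = B e' j h := by
        congr 1; omega
      rw [h2] at h1
      exact hx _ h1
    subst hj
    cases y with
    | B e'' k hk =>
      have he : e' = e'' := by
        by_contra hne
        rw [BB] at hxy
        have hlt : e' < e'' := by omega
        exact not_finite_Ioo (h0 e') (fun q => B_lt_R) (fun q => RB.2 hlt) hf
      subst he
      have hk1 : k + 1 = bs e' := by
        by_contra hk1
        exact hy _ (cov_B (by omega))
      rw [Ioo_BB hk, ncard_block hk] at hc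
      have hee : e = e' := by unfold bs at hk1; omega
      subst hee
      by_contra hi
      have := (mem_hasSucc_iff h0 (B e k hk : El bs V)).2 ⟨e, k, hk, rfl, Or.inr hi⟩
      obtain ⟨z, hz⟩ := this
      exact hy z hz
    | R e'' s hs q =>
      exfalso
      have he : e' = e'' := by
        by_contra hne
        rw [BR] at hxy
        have hlt : e' < e'' := by omega
        exact not_finite_Ioo (h0 e') (fun q => B_lt_R) (fun q => RR.2 (Or.inl hlt)) hf
      subst he
      have hmax : ∀ t, V e' t → t ≤ s := by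
        intro t ht
        by_contra hlt
        exact not_finite_Ioo ht (fun q => B_lt_R) (fun q => R_lt_R' (not_le.1 hlt)) hf
      have hq : q = 0 := by
        by_contra hq
        exact not_finite_Ioo' hs (pos_iff_ne_zero.2 hq) (fun q => B_lt_R) hf
      subst hq
      rw [Ioo_BR hs hmax] at hc hf
      rw [Set.ncard_union_eq (by simp) (hf.subset Set.subset_union_left) (Set.finite_singleton _),
        Ioo_BB, ncard_block (by unfold bs; omega), Set.ncard_singleton] at hc
      omega
  · intro hinf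
    have hk : 2 * e + 1 < bs e := by unfold bs; omega
    refine ⟨B e 0 (hb e), B e (2 * e + 1) hk, B_lt_B (by omega), ?_, ?_, not_cov_B0 h0,
      not_cov_last (by unfold bs; omega) h0 hinf⟩
    · rw [Ioo_BB hk]
      exact (Set.finite_Ioo 0 _).image _
    · rw [Ioo_BB hk, ncard_block hk]
      omega

end El

end Pool.Agent.W5h78.IA
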