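import Mathlib
import Pool.Agent.Helper941.Zeta.Cmp
import Pool.Agent.Helper446.Comp

/-!
A quotient of the natural numbers with a decidable equality and infinitely many classes has a
computable presentation with universe the natural numbers.
-/

namespace Pool.Agent.W5h78.IA

open Encodable Pool.Agent.Helper941.IsoProb Pool.Agent.Helper941.Zeta

/-- A computable infinite set is enumerated by a computable injective function. -/
theorem exists_enum {P : ℕ → Prop} (hP : ComputablePred P) (hinf : (setOf P).Infinite) :
    ∃ ν : ℕ → ℕ, Computable ν ∧ Function.Injective ν ∧ ∀ y, P y ↔ ∃ x, ν x = y := by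
  classical
  have hcount : Computable fun p : ℕ => Nat.count P p := by
    have h : Computable fun p : ℕ => (Nat.rec 0 (fun n b => b + (if P n then 1 else 0)) p : ℕ) := by
      refine Computable.nat_rec (f := fun p : ℕ => p) (g := fun _ => 0)
        (h := fun (_ : ℕ) (q : ℕ × ℕ) => (q.2 + (if P q.1 then 1 else 0) : ℕ)) Computable.id
        (Computable.const _) ?_
      refine c_add (c_snd (c_snd c_id)) (c_ite ?_ (c_const 1) (c_const 0))
      exact computablePred_comp hP (c_fst (c_snd c_id))
    refine h.of_eq fun p => ?_
    induction p with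
    | zero => rfl
    | succ p ih => rw [Nat.count_succ, ← ih]
  have hnth : Computable fun n : ℕ => Nat.nth P n := by
    have h := c_least (P := fun n m : ℕ => P m ∧ Nat.count P m = n)
      (p_and (computablePred_comp hP (c_snd c_id)) (p_eq (hcount.comp (c_snd c_id))
        (c_fst c_id))) (fun n => ⟨Nat.nth P n, Nat.nth_mem_of_infinite hinf n,
          Nat.count_nth_of_infinite hinf n⟩)
    refine h.of_eq fun n => ?_
    have : {m | P m ∧ Nat.count P m = n} = {Nat.nth P n} := by
      ext m
      rw [Set.mem_singleton_iff]
      show P m ∧ Nat.count P m = n ↔ _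
      constructor
      · rintro ⟨h1, h2⟩
        rw [← h2, Nat.nth_count h1]
      · rintro rfl
        exact ⟨Nat.nth_mem_of_infinite hinf n, Nat.count_nth_of_infinite hinf n⟩
    rw [this, csInf_singleton]
  refine ⟨fun n => Nat.nth P n, hnth, Nat.nth_injective hinf, fun y => ?_⟩
  constructor
  · intro hy
    exact ⟨Nat.count P y, Nat.nth_count hy⟩
  · rintro ⟨x, rfl⟩
    exact Nat.nth_mem_of_infinite hinf x

/-- A coding of an infinite type by natural numbers with decidable equality of codes gives a
bijective coding. -/
theorem exists_bij {α : Type} [Infinite α] (f : ℕ → α) (hf : Function.Surjective f)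
    (heq : ComputablePred fun p : ℕ × ℕ => f p.1 = f p.2) :
    ∃ (e : ℕ ≃ α) (g : ℕ → ℕ), Computable g ∧ ∀ n, e n = f (g n) := by
  classical
  let P : ℕ → Prop := fun n => ∀ m < n, ¬ f m = f n
  have hP : ComputablePred P := by
    refine p_ball (f := fun n : ℕ => n) (P := fun n m => ¬ f m = f n) c_id ?_
    exact p_not (computablePred_comp heq (c_pair (c_snd c_id) (c_fst c_id)))
  have hrep : ∀ a : α, ∃ n, P n ∧ f n = a := by
    intro a
    have hex : ∃ n, f n = a := hf a
    refine ⟨Nat.find hex, ?_, Nat.find_spec hex⟩
    intro m hm h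
    exact Nat.find_min hex hm (h.trans (Nat.find_spec hex))
  have hinj : ∀ m n, P m → P n → f m = f n → m = n := by
    intro m n hm hn h
    rcases lt_trichotomy m n with h1 | h1 | h1
    · exact absurd h (hn m h1)
    · exact h1
    · exact absurd h.symm (hm n h1)
  have hinf : (setOf P).Infinite := by
    intro hfin
    have : Set.Finite (Set.univ : Set α) := by
      refine (hfin.image f).subset ?_
      intro a _
      obtain ⟨n, h1, h2⟩ := hrep a
      exact ⟨n, h1, h2⟩
    exact Set.infinite_univ this
  obtain ⟨ν, hν, hν1, hν2⟩ := exists_enum hP hinf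
  have hbij : Function.Bijective fun n => f (ν n) := by
    constructor
    · intro m n h
      exact hν1 (hinj _ _ ((hν2 _).2 ⟨m, rfl⟩) ((hν2 _).2 ⟨n, rfl⟩) h)
    · intro a
      obtain ⟨n, h1, h2⟩ := hrep a
      obtain ⟨x, rfl⟩ := (hν2 n).1 h1
      exact ⟨x, h2⟩
  exact ⟨Equiv.ofBijective _ hbij, ν, hν, fun n => rfl⟩

end Pool.Agent.W5h78.IA
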