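import Mathlib
import Pool.Agent.W5h78.IA.Order
import Pool.Agent.W5h78.IA.Quot

/-!
Computable presentations of the orders.
-/

namespace Pool.Agent.W5h78.IA

open Set Pool.Agent.Helper941.IsoProb Pool.Agent.Helper941.Zeta

namespace El

variable {b : ℕ → ℕ} {V : ℕ → ℕ → Prop}

/-- the kind -/
def cK (n : ℕ) : ℕ := n.unpair.1
/-- the piece -/
def cE (n : ℕ) : ℕ := n.unpair.2.unpair.1
/-- the index -/
def cS (n : ℕ) : ℕ := n.unpair.2.unpair.2.unpair.1
/-- the numerator -/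
def cA (n : ℕ) : ℕ := n.unpair.2.unpair.2.unpair.2.unpair.1
/-- the denominator minus one -/
def cC (n : ℕ) : ℕ := n.unpair.2.unpair.2.unpair.2.unpair.2

open Classical in
/-- The enumeration of the order. -/
noncomputable def nu (hb : ∀ e, 0 < b e) (h0 : ∀ e, V e 0) (n : ℕ) : El b V :=
  if cK n = 0 then (if h : cS n < b (cE n) then B (cE n) (cS n) h else B (cE n) 0 (hb _))
  else (if h : V (cE n) (cS n) then R (cE n) (cS n) h ((cA n : ℚ≥0) / ((cC n : ℚ≥0) + 1))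
    else R (cE n) 0 (h0 _) 0)

theorem nu_of_B (hb : ∀ e, 0 < b e) (h0 : ∀ e, V e 0) {n : ℕ} (hn : cK n = 0)
    (h : cS n < b (cE n)) : nu hb h0 n = B (cE n) (cS n) h := by
  unfold nu; rw [if_pos hn, dif_pos h]

theorem nu_of_R (hb : ∀ e, 0 < b e) (h0 : ∀ e, V e 0) {n : ℕ} (hn : ¬ cK n = 0)
    (h : V (cE n) (cS n)) :
    nu hb h0 n = R (cE n) (cS n) h ((cA n : ℚ≥0) / ((cC n : ℚ≥0) + 1)) := by
  unfold nu; rw [if_neg hn, dif_pos h]

theorem num_div (q : ℚ≥0) : (q.num : ℚ≥0) / (((q.den - 1 : ℕ) : ℚ≥0) + 1) = q := by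
  have h1 : (((q.den - 1 : ℕ) : ℚ≥0) + 1) = (q.den : ℚ≥0) := by
    have := q.den_pos
    have h2 : q.den - 1 + 1 = q.den := by omega
    exact_mod_cast h2
  rw [h1]
  exact NNRat.num_div_den q

theorem div_lt_iff' (a b c d : ℕ) : ((a : ℚ≥0) / ((b : ℚ≥0) + 1) < (c : ℚ≥0) / ((d : ℚ≥0) + 1)) ↔
    a * (d + 1) < c * (b + 1) := by
  have h1 : (0:ℚ≥0) < (b : ℚ≥0) + 1 := Nat.cast_add_one_pos b
  have h2 : (0:ℚ≥0) < (d : ℚ≥0) + 1 := Nat.cast_add_one_pos d
  rw [div_lt_div_iff₀ h1 h2]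
  constructor
  · intro h
    exact_mod_cast h
  · intro h
    exact_mod_cast h

theorem exists_code (k e s a c : ℕ) : ∃ n, cK n = k ∧ cE n = e ∧ cS n = s ∧ cA n = a ∧ cC n = c :=
  ⟨Nat.pair k (Nat.pair e (Nat.pair s (Nat.pair a c))), by simp [cK], by simp [cE], by simp [cS],
    by simp [cA], by simp [cC]⟩

theorem nu_surjective (hb : ∀ e, 0 < b e) (h0 : ∀ e, V e 0) :
    Function.Surjective (nu hb h0) := by
  intro x
  cases x with
  | B e j h =>
    obtain ⟨n, h1, rfl, rfl, -, -⟩ := exists_code 0 e j 0 0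
    exact ⟨n, nu_of_B hb h0 h1 h⟩
  | R e s h q =>
    obtain ⟨n, h1, rfl, rfl, h4, h5⟩ := exists_code 1 e s q.num (q.den - 1)
    have hq : (cA n : ℚ≥0) / ((cC n : ℚ≥0) + 1) = q := by
      rw [h4, h5]
      exact num_div q
    exact ⟨n, (nu_of_R hb h0 (by omega) h).trans (congrArg (fun z => R (cE n) (cS n) h z) hq)⟩

open Classical in
/-- the normalised index -/
noncomputable def nS (b : ℕ → ℕ) (V : ℕ → ℕ → Prop) (n : ℕ) : ℕ :=
  if cK n = 0 then (if cS n < b (cE n) then cS n else 0)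
  else (if V (cE n) (cS n) then cS n else 0)

open Classical in
/-- the normalised numerator -/
noncomputable def nA (V : ℕ → ℕ → Prop) (n : ℕ) : ℕ := if V (cE n) (cS n) then cA n else 0

/-- the order of the codes -/
def Lt (b : ℕ → ℕ) (V : ℕ → ℕ → Prop) (m n : ℕ) : Prop :=
  cE m < cE n ∨ (cE m = cE n ∧ ((cK m = 0 ∧ ¬ cK n = 0) ∨
    ((cK m = 0 ∧ cK n = 0) ∧ nS b V m < nS b V n) ∨
    ((¬ cK m = 0 ∧ ¬ cK n = 0) ∧ (nS b V n < nS b V m ∨
      (nS b V m = nS b V n ∧ nA V m * (cC n + 1) < nA V n * (cC m + 1))))))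

theorem nu_B (hb : ∀ e, 0 < b e) (h0 : ∀ e, V e 0) {n : ℕ} (hn : cK n = 0) :
    ∃ h, nu hb h0 n = B (cE n) (nS b V n) h := by
  unfold nu nS
  rw [if_pos hn]
  by_cases h : cS n < b (cE n)
  · rw [dif_pos h]
    simp only [hn, if_true, h]
    exact ⟨trivial, trivial⟩
  · rw [dif_neg h]
    simp only [hn, if_true, h, if_false]
    exact ⟨hb _, trivial⟩

theorem nu_R (hb : ∀ e, 0 < b e) (h0 : ∀ e, V e 0) {n : ℕ} (hn : ¬ cK n = 0) :
    ∃ h, nu hb h0 n = R (cE n) (nS b V n) h ((nA V n : ℚ≥0) / ((cC n : ℚ≥0) + 1)) := by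
  unfold nu nS nA
  rw [if_neg hn]
  by_cases h : V (cE n) (cS n)
  · rw [dif_pos h]
    simp only [hn, if_true, h, if_false]
    exact ⟨trivial, trivial⟩
  · rw [dif_neg h]
    simp only [hn, h, if_false]
    exact ⟨h0 _, by simp⟩

theorem lt_iff (hb : ∀ e, 0 < b e) (h0 : ∀ e, V e 0) (m n : ℕ) :
    nu hb h0 m < nu hb h0 n ↔ Lt b V m n := by
  unfold Lt
  by_cases hm : cK m = 0 <;> by_cases hn : cK n = 0
  · obtain ⟨h1, e1⟩ := nu_B hb h0 hm
    obtain ⟨h2, e2⟩ := nu_B hb h0 hn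
    rw [e1, e2, BB]
    tauto
  · obtain ⟨h1, e1⟩ := nu_B hb h0 hm
    obtain ⟨h2, e2⟩ := nu_R hb h0 hn
    rw [e1, e2, BR, le_iff_lt_or_eq]
    tauto
  · obtain ⟨h1, e1⟩ := nu_R hb h0 hm
    obtain ⟨h2, e2⟩ := nu_B hb h0 hn
    rw [e1, e2, RB]
    tauto
  · obtain ⟨h1, e1⟩ := nu_R hb h0 hm
    obtain ⟨h2, e2⟩ := nu_R hb h0 hn
    rw [e1, e2, RR]
    rw [div_lt_iff']
    simp only [hm, hn, false_and, not_false_eq_true, true_and, false_or]

theorem c_cK : Computable cK := c_up1 c_id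
theorem c_cE : Computable cE := c_up1 (c_up2 c_id)
theorem c_cS : Computable cS := c_up1 (c_up2 (c_up2 c_id))
theorem c_cA : Computable cA := c_up1 (c_up2 (c_up2 (c_up2 c_id)))
theorem c_cC : Computable cC := c_up2 (c_up2 (c_up2 (c_up2 c_id)))

theorem c_nS (hbc : Computable b) (hV : ComputablePred fun p : ℕ × ℕ => V p.1 p.2) :
    Computable (nS b V) := by
  classical
  have hP : ComputablePred fun n : ℕ => V (cE n) (cS n) :=
    computablePred_comp hV (c_pair c_cE c_cS)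
  have h1 : Computable fun n => if cK n = 0 then (if cS n < b (cE n) then cS n else 0)
      else (if V (cE n) (cS n) then cS n else 0) :=
    c_ite (p_eq c_cK (c_const 0)) (c_ite (p_lt c_cS (hbc.comp c_cE)) c_cS (c_const 0))
      (c_ite hP c_cS (c_const 0))
  refine h1.of_eq fun n => ?_
  unfold nS
  by_cases h : cK n = 0 <;> by_cases h' : cS n < b (cE n) <;> by_cases h'' : V (cE n) (cS n) <;>
    simp [h, h', h'']

theorem c_nA (hV : ComputablePred fun p : ℕ × ℕ => V p.1 p.2) : Computable (nA V) := by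
  classical
  have hP : ComputablePred fun n : ℕ => V (cE n) (cS n) :=
    computablePred_comp hV (c_pair c_cE c_cS)
  have h1 : Computable fun n => if V (cE n) (cS n) then cA n else 0 :=
    c_ite hP c_cA (c_const 0)
  refine h1.of_eq fun n => ?_
  unfold nA
  by_cases h : V (cE n) (cS n) <;> simp [h]

theorem computable_Lt (hbc : Computable b) (hV : ComputablePred fun p : ℕ × ℕ => V p.1 p.2) :
    ComputablePred fun p : ℕ × ℕ => Lt b V p.1 p.2 := by
  have f1 : Computable fun p : ℕ × ℕ => p.1 := Computable.fst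
  have f2 : Computable fun p : ℕ × ℕ => p.2 := Computable.snd
  have K1 := p_eq (c_cK.comp f1) (c_const 0)
  have K2 := p_eq (c_cK.comp f2) (c_const 0)
  have S1 := (c_nS hbc hV).comp f1
  have S2 := (c_nS hbc hV).comp f2
  have A1 := (c_nA hV).comp f1
  have A2 := (c_nA hV).comp f2
  have C1 := c_succ (c_cC.comp f1)
  have C2 := c_succ (c_cC.comp f2)
  unfold Lt
  refine p_or (p_lt (c_cE.comp f1) (c_cE.comp f2)) (p_and (p_eq (c_cE.comp f1) (c_cE.comp f2))
    (p_or (p_and K1 (p_not K2)) (p_or (p_and (p_and K1 K2) (p_lt S1 S2))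
      (p_and (p_and (p_not K1) (p_not K2)) (p_or (p_lt S2 S1)
        (p_and (p_eq S1 S2) (p_lt (c_mul A1 C2) (c_mul A2 C1))))))))

/-- The enumeration of the order is computable. -/
theorem computable_nu_le (hb : ∀ e, 0 < b e) (h0 : ∀ e, V e 0) (hbc : Computable b)
    (hV : ComputablePred fun p : ℕ × ℕ => V p.1 p.2) :
    ComputablePred fun p : ℕ × ℕ => nu hb h0 p.1 ≤ nu hb h0 p.2 := by
  have h1 := p_not (computablePred_comp (computable_Lt hbc hV)
    (c_pair Computable.snd Computable.fst) (f := fun p : ℕ × ℕ => (p.2, p.1)))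
  refine h1.of_eq fun p => ?_
  rw [← lt_iff hb h0, not_lt]

end El

end Pool.Agent.W5h78.IA
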