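import Mathlib
import Pool.Agent.W5h78.IA.Intal
import Pool.Agent.W5h78.IA.Quot

/-!
The interval algebra of a computable linear order with a least element is a computable Boolean
algebra.
-/

namespace Pool.Agent.W5h78.IA

open Set symmDiff Encodable Pool.Agent.Helper446

variable {γ : Type} [LinearOrder γ]

variable (γ) in
/-- the interval algebra -/
def intalg : BooleanSubalgebra (Set γ) where
  carrier := {X | IsIntal X}
  supClosed' := fun _ ha _ hb => IsIntal.union ha hb
  infClosed' := fun _ ha _ hb => IsIntal.inter ha hb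
  compl_mem' := fun ha => IsIntal.compl ha
  bot_mem' := isIntal_empty

theorem mem_intalg {X : Set γ} : X ∈ intalg γ ↔ IsIntal X := Iff.rfl

/-- the set coded by a list of end points -/
def XL (ν : ℕ → γ) : List ℕ → Set γ
  | [] => ∅
  | s :: l => XL ν l ∆ Ici (ν s)

variable {ν : ℕ → γ}

theorem isIntal_XL (l : List ℕ) : IsIntal (XL ν l) := by
  induction l with
  | nil => exact isIntal_empty
  | cons s l ih => exact ih.symmDiff_Ici _

theorem exists_XL (hs : Function.Surjective ν) {m : ℕ} (hm : ∀ x, ν m ≤ x) {X : Set γ}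
    (hX : IsIntal X) : ∃ l, XL ν l = X := by
  refine IsIntal.induction (P := fun X => ∃ l, XL ν l = X) ⟨[], rfl⟩ ⟨[m], ?_⟩ ?_ X hX
  · ext x
    simp only [XL]
    rw [Set.mem_symmDiff]
    simp [hm]
  · rintro Y s ⟨l, rfl⟩
    obtain ⟨k, rfl⟩ := hs s
    exact ⟨k :: l, rfl⟩

theorem mem_XL_congr {l : List ℕ} {x y : γ} (h : ∀ s ∈ l, (ν s ≤ x ↔ ν s ≤ y)) :
    x ∈ XL ν l ↔ y ∈ XL ν l := by
  induction l with
  | nil => exact Iff.rfl
  | cons s l ih =>
    have h1 := ih fun t ht => h t (List.mem_cons_of_mem _ ht)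
    have h2 := h s List.mem_cons_self
    simp only [XL]
    rw [Set.mem_symmDiff, Set.mem_symmDiff, mem_Ici, mem_Ici, h1, h2]

theorem exists_rep {T : List ℕ} {m : ℕ} (hm : ∀ x, ν m ≤ x) (hT : m ∈ T) (x : γ) :
    ∃ t ∈ T, ∀ s ∈ T, (ν s ≤ x ↔ ν s ≤ ν t) := by
  classical
  obtain ⟨t, ht, hmax⟩ := (T.toFinset.filter (fun t => ν t ≤ x)).exists_max_image ν
    ⟨m, by simp [hT, hm]⟩
  rw [Finset.mem_filter, List.mem_toFinset] at ht
  refine ⟨t, ht.1, fun s hs => ⟨fun h => ?_, fun h => h.trans ht.2⟩⟩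
  exact hmax s (by simp [hs, h])

theorem forall_iff {l1 l2 l3 : List ℕ} {m : ℕ} (hm : ∀ x, ν m ≤ x) (F : Prop → Prop → Prop → Prop) :
    (∀ x, F (x ∈ XL ν l1) (x ∈ XL ν l2) (x ∈ XL ν l3)) ↔
      ∀ t ∈ m :: (l1 ++ (l2 ++ l3)), F (ν t ∈ XL ν l1) (ν t ∈ XL ν l2) (ν t ∈ XL ν l3) := by
  constructor
  · intro h t _
    exact h (ν t)
  · intro h x
    obtain ⟨t, ht, hrep⟩ := exists_rep (T := m :: (l1 ++ (l2 ++ l3))) hm List.mem_cons_self x
    have h1 := mem_XL_congr (l := l1) (x := x) (y := ν t) fun s hs =>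
      hrep s (by simp [hs])
    have h2 := mem_XL_congr (l := l2) (x := x) (y := ν t) fun s hs =>
      hrep s (by simp [hs])
    have h3 := mem_XL_congr (l := l3) (x := x) (y := ν t) fun s hs =>
      hrep s (by simp [hs])
    rw [h1, h2, h3]
    exact h t ht

open Classical in
theorem foldl_iff (l : List ℕ) (x : γ) (acc : Bool) :
    l.foldl (fun a s => xor a (decide (ν s ≤ x))) acc = true ↔ Xor (acc = true) (x ∈ XL ν l) := by
  induction l generalizing acc with
  | nil => simp [XL, Xor]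
  | cons s l ih =>
    rw [List.foldl_cons, ih]
    simp only [XL]
    rw [Set.mem_symmDiff, mem_Ici]
    by_cases h : ν s ≤ x <;> by_cases h2 : x ∈ XL ν l <;> cases acc <;> simp [h, h2, Xor]

variable (hν : ComputablePred fun p : ℕ × ℕ => ν p.1 ≤ ν p.2)

include hν in
theorem computable_mem : ComputablePred fun p : List ℕ × ℕ => ν p.2 ∈ XL ν p.1 := by
  classical
  have h2 : Computable₂ fun (p : List ℕ × ℕ) (q : Bool × ℕ) => xor q.1 (decide (ν q.2 ≤ ν p.2)) := by
    have h3 : Computable fun x : (List ℕ × ℕ) × (Bool × ℕ) => decide (ν x.2.2 ≤ ν x.1.2) :=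
      RE.cdecide (RE.cp_comp (p := fun p : ℕ × ℕ => ν p.1 ≤ ν p.2) hν
        (f := fun x : (List ℕ × ℕ) × (Bool × ℕ) => (x.2.2, x.1.2)) (by fun_prop))
    have h4 : Computable fun x : (List ℕ × ℕ) × (Bool × ℕ) => x.2.1 := by fun_prop
    refine (RE.ccond h4 (RE.cnot h3) h3).of_eq fun x => ?_
    obtain ⟨x1, b, x2⟩ := x
    cases b <;> simp
  have h1 : Computable fun p : List ℕ × ℕ =>
      p.1.foldl (fun a s => xor a (decide (ν s ≤ ν p.2))) false :=
    RE.list_foldl (f := fun p : List ℕ × ℕ => p.1) (g := fun _ => false)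
      (h := fun p q => xor q.1 (decide (ν q.2 ≤ ν p.2))) (by fun_prop) (by fun_prop) h2
  refine ComputablePred.computable_iff.2 ⟨_, h1, ?_⟩
  funext p
  apply propext
  show _ ↔ _ = true
  rw [foldl_iff]
  simp [Xor]

include hν in
theorem re_mem {α : Type} [Primcodable α] {l : α → List ℕ} {t : α → ℕ} (hl : Computable l)
    (ht : Computable t) : ComputablePred fun a => ν (t a) ∈ XL ν (l a) :=
  RE.cp_comp (computable_mem hν) (f := fun a => (l a, t a)) (hl.pair ht)

/-- The interval algebra has a computable presentation. -/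
theorem exists_pres [Infinite γ] (hs : Function.Surjective ν)
    (hν : ComputablePred fun p : ℕ × ℕ => ν p.1 ≤ ν p.2) {m : ℕ} (hm : ∀ x, ν m ≤ x) :
    ∃ e : ℕ ≃ intalg γ, Computable₂ (fun m n : ℕ => e.symm (e m ⊔ e n)) ∧
      Computable₂ (fun m n : ℕ => e.symm (e m ⊓ e n)) ∧
      Computable (fun n : ℕ => e.symm (e n)ᶜ) ∧
      ∀ l : ℕ → List ℕ, Computable l → Computable fun k => e.symm ⟨XL ν (l k), isIntal_XL _⟩ := by
  classical
  have hinf : Infinite (intalg γ) := by
    refine Infinite.of_injective (fun s : γ => (⟨Ici s, isIntal_Ici s⟩ : intalg γ)) ?_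
    intro s t h
    have h1 : Ici s = Ici t := congrArg Subtype.val h
    exact Ici_injective h1
  let f : ℕ → intalg γ := fun n => ⟨XL ν (Denumerable.ofNat (List ℕ) n), isIntal_XL _⟩
  have hf : Function.Surjective f := by
    rintro ⟨X, hX⟩
    obtain ⟨l, rfl⟩ := exists_XL hs hm hX
    exact ⟨encode l, Subtype.ext (by simp only [f, Denumerable.ofNat_encode])⟩
  have hofn : Computable (Denumerable.ofNat (List ℕ)) := Computable.ofNat _
  -- decidability of relations given pointwise
  have hrel : ∀ {α : Type} [Primcodable α] (l1 l2 l3 : α → List ℕ) (F : Prop → Prop → Prop → Prop),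
      Computable l1 → Computable l2 → Computable l3 →
      (∀ {P Q R : α × ℕ → Prop}, ComputablePred P → ComputablePred Q → ComputablePred R →
        ComputablePred fun a => F (P a) (Q a) (R a)) →
      REPred fun a => ∀ x, F (x ∈ XL ν (l1 a)) (x ∈ XL ν (l2 a)) (x ∈ XL ν (l3 a)) := by
    intro α _ l1 l2 l3 F h1 h2 h3 hF
    have h4 : REPred fun a => ∀ t ∈ m :: (l1 a ++ (l2 a ++ l3 a)),
        F (ν t ∈ XL ν (l1 a)) (ν t ∈ XL ν (l2 a)) (ν t ∈ XL ν (l3 a)) := by
      refine RE.all_mem (p := fun a t => F (ν t ∈ XL ν (l1 a)) (ν t ∈ XL ν (l2 a))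
        (ν t ∈ XL ν (l3 a))) ?_ (by fun_prop)
      have h5 := hF (re_mem hν (l := fun x : α × ℕ => l1 x.1) (t := fun x => x.2)
        (by fun_prop) (by fun_prop)) (re_mem hν (l := fun x : α × ℕ => l2 x.1) (t := fun x => x.2)
        (by fun_prop) (by fun_prop)) (re_mem hν (l := fun x : α × ℕ => l3 x.1) (t := fun x => x.2)
        (by fun_prop) (by fun_prop))
      exact RE.of_comput h5
    refine h4.of_eq fun a => ?_
    exact (forall_iff hm F).symm
  open Pool.Agent.Helper941.Zeta in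
  have hF1 : ∀ {α : Type} [Primcodable α] {P Q R : α × ℕ → Prop}, ComputablePred P →
      ComputablePred Q → ComputablePred R → ComputablePred fun a => (P a ∨ Q a) ↔ R a :=
    fun h1 h2 h3 => p_iff (p_or h1 h2) h3
  open Pool.Agent.Helper941.Zeta in
  have hF2 : ∀ {α : Type} [Primcodable α] {P Q R : α × ℕ → Prop}, ComputablePred P →
      ComputablePred Q → ComputablePred R → ComputablePred fun a => (P a ∧ Q a) ↔ R a :=
    fun h1 h2 h3 => p_iff (p_and h1 h2) h3
  open Pool.Agent.Helper941.Zeta in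
  have hF3 : ∀ {α : Type} [Primcodable α] {P Q R : α × ℕ → Prop}, ComputablePred P →
      ComputablePred Q → ComputablePred R → ComputablePred fun a => (¬ P a) ↔ R a :=
    fun h1 h2 h3 => p_iff (p_not h1) h3
  open Pool.Agent.Helper941.Zeta in
  have hF4 : ∀ {α : Type} [Primcodable α] {P Q R : α × ℕ → Prop}, ComputablePred P →
      ComputablePred Q → ComputablePred R → ComputablePred fun a => P a ↔ R a :=
    fun h1 h2 h3 => p_iff h1 h3
  open Pool.Agent.Helper941.Zeta in
  have hF5 : ∀ {α : Type} [Primcodable α] {P Q R : α × ℕ → Prop}, ComputablePred P →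
      ComputablePred Q → ComputablePred R → ComputablePred fun a => ¬ (P a ↔ R a) :=
    fun h1 h2 h3 => p_not (p_iff h1 h3)
  have heqiff : ∀ i j, f i = f j ↔ ∀ x, x ∈ XL ν (Denumerable.ofNat (List ℕ) i) ↔
      x ∈ XL ν (Denumerable.ofNat (List ℕ) j) := by
    intro i j
    rw [Subtype.ext_iff]
    exact Set.ext_iff
  have heq : ComputablePred fun p : ℕ × ℕ => f p.1 = f p.2 := by
    open Pool.Agent.Helper941.Zeta in
    have hc : ComputablePred fun p : ℕ × ℕ => ∀ x, x ∈ XL ν (Denumerable.ofNat (List ℕ) p.1) ↔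
        x ∈ XL ν (Denumerable.ofNat (List ℕ) p.2) := by
      have e1 : Computable fun p : ℕ × ℕ => Denumerable.ofNat (List ℕ) p.1 :=
        hofn.comp Computable.fst
      have e2 : Computable fun p : ℕ × ℕ => Denumerable.ofNat (List ℕ) p.2 :=
        hofn.comp Computable.snd
      refine RE.cp_of_re ?_ ?_
      · exact (hrel _ _ _ (fun P _ R => P ↔ R) e1 e1 e2 hF4)
      · -- the negation is a bounded existential quantifier
        have h6 : REPred fun p : ℕ × ℕ => ∃ t, ¬ (ν t ∈ XL ν (Denumerable.ofNat (List ℕ) p.1) ↔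
            ν t ∈ XL ν (Denumerable.ofNat (List ℕ) p.2)) := by
          refine RE.exN (p := fun (p : ℕ × ℕ) t =>
            ¬ (ν t ∈ XL ν (Denumerable.ofNat (List ℕ) p.1) ↔
            ν t ∈ XL ν (Denumerable.ofNat (List ℕ) p.2))) ?_
          refine RE.of_comput (p_not (p_iff ?_ ?_))
          · exact re_mem hν (e1.comp Computable.fst) Computable.snd
          · exact re_mem hν (e2.comp Computable.fst) Computable.snd
        refine h6.of_eq fun p => ?_
        constructor
        · rintro ⟨t, ht⟩ h; exact ht (h _)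
        · intro h
          push Not at h
          obtain ⟨x, hx⟩ := h
          obtain ⟨t, rfl⟩ := hs x
          exact ⟨t, by tauto⟩
    exact hc.of_eq fun p => (heqiff _ _).symm
  obtain ⟨e, g, hg, heg⟩ := exists_bij f hf heq
  let L : ℕ → List ℕ := fun n => Denumerable.ofNat (List ℕ) (g n)
  have hL : Computable L := hofn.comp hg
  have heL : ∀ n, (e n : Set γ) = XL ν (L n) := fun n => by rw [heg]
  refine ⟨e, ?_, ?_, ?_, ?_⟩
  · refine RE.computable_of_graph (f := fun x : ℕ × ℕ => e.symm (e x.1 ⊔ e x.2)) ?_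
    have h1 := hrel (α := (ℕ × ℕ) × ℕ) (fun x => L x.1.1) (fun x => L x.1.2) (fun x => L x.2)
      (fun P Q R => (P ∨ Q) ↔ R) (by fun_prop) (by fun_prop) (by fun_prop) hF1
    refine h1.of_eq fun x => ?_
    rw [Equiv.symm_apply_eq, Subtype.ext_iff, Set.ext_iff, BooleanSubalgebra.val_sup]
    simp only [Set.sup_eq_union, Set.mem_union, heL]
  · refine RE.computable_of_graph (f := fun x : ℕ × ℕ => e.symm (e x.1 ⊓ e x.2)) ?_
    have h1 := hrel (α := (ℕ × ℕ) × ℕ) (fun x => L x.1.1) (fun x => L x.1.2) (fun x => L x.2)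
      (fun P Q R => (P ∧ Q) ↔ R) (by fun_prop) (by fun_prop) (by fun_prop) hF2
    refine h1.of_eq fun x => ?_
    rw [Equiv.symm_apply_eq, Subtype.ext_iff, Set.ext_iff, BooleanSubalgebra.val_inf]
    simp only [Set.inf_eq_inter, Set.mem_inter_iff, heL]
  · refine RE.computable_of_graph (f := fun x : ℕ => e.symm (e x)ᶜ) ?_
    have h1 := hrel (α := ℕ × ℕ) (fun x => L x.1) (fun x => L x.1) (fun x => L x.2)
      (fun P _ R => (¬ P) ↔ R) (by fun_prop) (by fun_prop) (by fun_prop) hF3
    refine h1.of_eq fun x => ?_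
    rw [Equiv.symm_apply_eq, Subtype.ext_iff, Set.ext_iff, BooleanSubalgebra.val_compl]
    simp only [Set.mem_compl_iff, heL]
  · intro l hl
    refine RE.computable_of_graph (f := fun k : ℕ => e.symm ⟨XL ν (l k), isIntal_XL _⟩) ?_
    have h1 := hrel (α := ℕ × ℕ) (fun x => l x.1) (fun x => l x.1) (fun x => L x.2)
      (fun P _ R => P ↔ R) (by fun_prop) (by fun_prop) (by fun_prop) hF4
    refine h1.of_eq fun x => ?_
    rw [Equiv.symm_apply_eq, Subtype.ext_iff, Set.ext_iff]
    simp only [heL]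

end Pool.Agent.W5h78.IA
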