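import Mathlib
import Pool.Agent.Helper941.Zeta.Cmp
import Pool.Agent.Helper446.Comp
import Pool.Agent.W5h78.IA.Alg

/-!
Recursion theory: a computable family of sets such that infinity of its members is not `Σ₂`, and
the complexity of the set of block sizes of a linear order with recursively enumerable adjacency.
-/

namespace Pool.Agent.W5h78.IA

open Set Pool.Agent.Helper941.IsoProb Pool.Agent.Helper941.Zeta Pool.Agent.Helper446

/-- the pointer -/
def ptr (f : ℕ × ℕ → ℕ → Bool) (e : ℕ) : ℕ → ℕ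
  | 0 => 0
  | s + 1 => bif f (e, ptr f e s) s then ptr f e s + 1 else ptr f e s

theorem ptr_le (f : ℕ × ℕ → ℕ → Bool) (e : ℕ) {s t : ℕ} (h : s ≤ t) : ptr f e s ≤ ptr f e t := by
  induction t, h using Nat.le_induction with
  | base => exact le_rfl
  | succ t _ ih =>
    refine ih.trans ?_
    show _ ≤ bif f (e, ptr f e t) t then ptr f e t + 1 else ptr f e t
    cases f (e, ptr f e t) t <;> simp

theorem ptr_passed (f : ℕ × ℕ → ℕ → Bool) (e : ℕ) (t : ℕ) :
    ∀ y < ptr f e t, ∃ s, f (e, y) s = true := by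
  induction t with
  | zero => intro y hy; exact absurd hy (Nat.not_lt_zero y)
  | succ t ih =>
    intro y hy
    have h1 : ptr f e (t + 1) = bif f (e, ptr f e t) t then ptr f e t + 1 else ptr f e t := rfl
    cases h2 : f (e, ptr f e t) t with
    | false =>
      rw [h2, cond_false] at h1
      exact ih y (h1 ▸ hy)
    | true =>
      rw [h2, cond_true] at h1
      rcases Nat.lt_succ_iff_lt_or_eq.1 (h1 ▸ hy) with h3 | h3
      · exact ih y h3
      · subst h3; exact ⟨t, h2⟩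

/-- A computable family of sets of natural numbers for which being infinite is not `Σ₂`. -/
theorem exists_V : ∃ V : ℕ → ℕ → Prop, (ComputablePred fun p : ℕ × ℕ => V p.1 p.2) ∧
    (∀ e, V e 0) ∧ ¬ Sigma0 2 (fun e => ∀ s, ∃ t, s < t ∧ V e t) := by
  obtain ⟨Q, hQ, hP⟩ := sigma_Un 1
  have hQ' : Sigma0 1 fun p : ℕ × ℕ => Q ((p.1, p.1), p.2) :=
    hQ.comp (c_pair (c_pair (c_fst c_id) (c_fst c_id)) (c_snd c_id))
  obtain ⟨f, hf, hmono, hfQ⟩ := sigma1_primrec hQ'
  have hfc : Computable fun p : (ℕ × ℕ) × ℕ => f p.1 p.2 := hf.to_comp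
  have hptr : Computable fun p : ℕ × ℕ => ptr f p.1 p.2 := by
    have h : Computable fun p : ℕ × ℕ => (Nat.rec 0
        (fun s y => bif f (p.1, y) s then y + 1 else y) p.2 : ℕ) := by
      refine Computable.nat_rec (f := fun p : ℕ × ℕ => p.2) (g := fun _ => 0)
        (h := fun (p : ℕ × ℕ) (q : ℕ × ℕ) => (bif f (p.1, q.2) q.1 then q.2 + 1 else q.2 : ℕ))
        Computable.snd (Computable.const _) ?_
      have h1 : Computable fun x : (ℕ × ℕ) × (ℕ × ℕ) => f (x.1.1, x.2.2) x.2.1 :=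
        hfc.comp (g := fun x : (ℕ × ℕ) × (ℕ × ℕ) => ((x.1.1, x.2.2), x.2.1)) (by fun_prop)
      have h2 : Computable fun x : (ℕ × ℕ) × (ℕ × ℕ) => x.2.2 := by fun_prop
      exact RE.ccond h1 (c_succ h2) h2
    refine h.of_eq fun p => ?_
    obtain ⟨e, s⟩ := p
    induction s with
    | zero => rfl
    | succ s ih =>
      show (bif f (e, _) s then _ + 1 else _ : ℕ) = ptr f e (s + 1)
      have ih' : (Nat.rec 0 (fun s y => bif f (e, y) s then y + 1 else y) s : ℕ) = ptr f e s := ih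
      rw [ih']
      rfl
  let V : ℕ → ℕ → Prop := fun e s => s = 0 ∨ f (e, ptr f e s) s = true
  have hV : ComputablePred fun p : ℕ × ℕ => V p.1 p.2 := by
    refine p_or (p_eq (c_snd c_id) (c_const 0)) (p_of_bool ?_)
    exact hfc.comp (c_pair (c_pair (c_fst c_id) hptr) (c_snd c_id))
  have hinf : ∀ e, (∀ s, ∃ t, s < t ∧ V e t) ↔ ¬ Un 1 (e, e) := by
    intro e
    rw [hP (e, e)]
    push Not
    constructor
    · intro h
      have hunb : ∀ n, ∃ t, n ≤ ptr f e t := by
        intro n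
        induction n with
        | zero => exact ⟨0, Nat.zero_le _⟩
        | succ n ih =>
          obtain ⟨s, hs⟩ := ih
          obtain ⟨t, hst, ht⟩ := h s
          have ht' : f (e, ptr f e t) t = true := ht.resolve_left (by omega)
          refine ⟨t + 1, ?_⟩
          have h1 : ptr f e (t + 1) = bif f (e, ptr f e t) t then ptr f e t + 1 else ptr f e t :=
            rfl
          rw [h1, ht', cond_true]
          have := ptr_le f e hst.le
          omega
      intro y
      obtain ⟨t, ht⟩ := hunb (y + 1)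
      obtain ⟨s, hs⟩ := ptr_passed f e t y ht
      exact (hfQ (e, y)).2 ⟨s, hs⟩
    · intro h s
      by_contra hcon
      push Not at hcon
      have hconst : ∀ t, s + 1 ≤ t → ptr f e t = ptr f e (s + 1) := by
        intro t ht
        induction t, ht using Nat.le_induction with
        | base => rfl
        | succ t ht ih =>
          have h1 : ptr f e (t + 1) = bif f (e, ptr f e t) t then ptr f e t + 1 else ptr f e t :=
            rfl
          have h2 : f (e, ptr f e t) t = false := by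
            by_contra h3
            exact hcon t (by omega) (Or.inr (by simpa using h3))
          rw [h1, h2, cond_false, ih]
      obtain ⟨u, hu⟩ := (hfQ (e, ptr f e (s + 1))).1 (h _)
      have h2 := hmono _ u (max u (s + 1)) (le_max_left _ _) hu
      refine hcon (max u (s + 1)) (lt_of_lt_of_le (Nat.lt_succ_self s) (le_max_right _ _))
        (Or.inr ?_)
      rw [hconst _ (le_max_right _ _)]
      exact h2
  refine ⟨V, hV, fun e => Or.inl rfl, fun hS => ?_⟩
  have h1 : Sigma0 2 (fun e => ¬ Un 1 (e, e)) := hS.of_iff fun e => (hinf e).symm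
  obtain ⟨i, hi⟩ := Un_universal 1 h1
  have := hi i
  tauto

/-- Recursively enumerable predicates are `Σ₁`. -/
theorem sigma_of_re {α : Type} [Primcodable α] {P : α → Prop} (h : REPred P) : Sigma0 1 P := by
  obtain ⟨q, hq, hP⟩ := RE.re_iff.1 h
  refine ⟨fun p => ¬ (q p.1 p.2 = true), ?_, fun a => by rw [hP]; simp⟩
  exact (p_of_bool (f := fun p : α × ℕ => q p.1 p.2) hq).not

/-- The set of (half of the) sizes of the finite maximal blocks of a computable linear order with
recursively enumerable adjacency is `Σ₂`. -/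
theorem sigma_blocks {β : Type} [LinearOrder β] (l : ℕ ≃ β)
    (hl : ComputablePred fun p : ℕ × ℕ => l p.1 ≤ l p.2)
    (hadj : REPred fun p : ℕ × ℕ => l p.1 ⋖ l p.2) :
    Sigma0 2 fun e : ℕ => ∃ x y : β, x < y ∧ (Ioo x y).Finite ∧ (Ioo x y).ncard = 2 * e ∧
      (∀ z, ¬ z ⋖ x) ∧ (∀ z, ¬ y ⋖ z) := by
  classical
  have hlt : ComputablePred fun p : ℕ × ℕ => l p.1 < l p.2 := by
    have := p_not (computablePred_comp hl (f := fun p : ℕ × ℕ => (p.2, p.1)) (by fun_prop))
    exact this.of_eq fun p => not_le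
  have hbt : ComputablePred fun p : (ℕ × ℕ) × ℕ => l p.1.1 < l p.2 ∧ l p.2 < l p.1.2 :=
    p_and (computablePred_comp hlt (f := fun p : (ℕ × ℕ) × ℕ => (p.1.1, p.2)) (by fun_prop))
      (computablePred_comp hlt (f := fun p : (ℕ × ℕ) × ℕ => (p.2, p.1.2)) (by fun_prop))
  have hcount : Computable fun p : (ℕ × ℕ) × ℕ =>
      Nat.count (fun u => l p.1.1 < l u ∧ l u < l p.1.2) p.2 := by
    have h : Computable fun p : (ℕ × ℕ) × ℕ => (Nat.rec 0
        (fun u c => c + (if l p.1.1 < l u ∧ l u < l p.1.2 then 1 else 0)) p.2 : ℕ) := by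
      refine Computable.nat_rec (f := fun p : (ℕ × ℕ) × ℕ => p.2) (g := fun _ => 0)
        (h := fun (p : (ℕ × ℕ) × ℕ) (q : ℕ × ℕ) =>
          (q.2 + (if l p.1.1 < l q.1 ∧ l q.1 < l p.1.2 then 1 else 0) : ℕ))
        Computable.snd (Computable.const _) ?_
      refine c_add (by fun_prop) (c_ite ?_ (c_const 1) (c_const 0))
      exact computablePred_comp hbt
        (f := fun x : ((ℕ × ℕ) × ℕ) × (ℕ × ℕ) => (x.1.1, x.2.1)) (by fun_prop)
    refine h.of_eq fun p => ?_
    obtain ⟨ij, N⟩ := p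
    induction N with
    | zero => rfl
    | succ N ih =>
      rw [Nat.count_succ]
      have ih' : (Nat.rec 0 (fun u c => c + (if l ij.1 < l u ∧ l u < l ij.2 then 1 else 0)) N : ℕ)
        = Nat.count (fun u => l ij.1 < l u ∧ l u < l ij.2) N := ih
      rw [← ih']
  have hA := sigma_of_re hadj
  -- the arithmetical description
  have hmain : Sigma0 2 fun e : ℕ => ∃ w : (ℕ × ℕ) × ℕ, (l w.1.1 < l w.1.2 ∧
      Nat.count (fun u => l w.1.1 < l u ∧ l u < l w.1.2) w.2 = 2 * e) ∧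
      ((∀ u, ¬ (w.2 ≤ u ∧ l w.1.1 < l u ∧ l u < l w.1.2)) ∧
      ((∀ z, ¬ l z ⋖ l w.1.1) ∧ (∀ z, ¬ l w.1.2 ⋖ l z))) := by
    refine Sigma0.ex' (P := fun q : ℕ × ((ℕ × ℕ) × ℕ) => (l q.2.1.1 < l q.2.1.2 ∧
      Nat.count (fun u => l q.2.1.1 < l u ∧ l u < l q.2.1.2) q.2.2 = 2 * q.1) ∧
      ((∀ u, ¬ (q.2.2 ≤ u ∧ l q.2.1.1 < l u ∧ l u < l q.2.1.2)) ∧
      ((∀ z, ¬ l z ⋖ l q.2.1.1) ∧ (∀ z, ¬ l q.2.1.2 ⋖ l z)))) ?_
    refine Sigma0.and (ComputablePred.sigma (p_and ?_ ?_)) (Sigma0.and ?_ (Sigma0.and ?_ ?_))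
    · exact computablePred_comp hlt (f := fun q : ℕ × ((ℕ × ℕ) × ℕ) => (q.2.1.1, q.2.1.2))
        (by fun_prop)
    · exact p_eq (hcount.comp Computable.snd) (by fun_prop)
    · refine Pi0.toSigma ?_
      refine Pi0.all (P := fun r : (ℕ × ((ℕ × ℕ) × ℕ)) × ℕ =>
        ¬ (r.1.2.2 ≤ r.2 ∧ l r.1.2.1.1 < l r.2 ∧ l r.2 < l r.1.2.1.2)) ?_
      refine ComputablePred.pi (p_not (p_and (p_le (by fun_prop) (by fun_prop)) ?_))
      exact computablePred_comp hbt
        (f := fun r : (ℕ × ((ℕ × ℕ) × ℕ)) × ℕ => (r.1.2.1, r.2)) (by fun_prop)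
    · refine Pi0.toSigma ?_
      refine Pi0.all (P := fun r : (ℕ × ((ℕ × ℕ) × ℕ)) × ℕ => ¬ l r.2 ⋖ l r.1.2.1.1) ?_
      exact (hA.comp (f := fun r : (ℕ × ((ℕ × ℕ) × ℕ)) × ℕ => (r.2, r.1.2.1.1))
        (by fun_prop)).not
    · refine Pi0.toSigma ?_
      refine Pi0.all (P := fun r : (ℕ × ((ℕ × ℕ) × ℕ)) × ℕ => ¬ l r.1.2.1.2 ⋖ l r.2) ?_
      exact (hA.comp (f := fun r : (ℕ × ((ℕ × ℕ) × ℕ)) × ℕ => (r.1.2.1.2, r.2))
        (by fun_prop)).not
  have hcard : ∀ i j N, (∀ u, ¬ (N ≤ u ∧ l i < l u ∧ l u < l j)) →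
      (Ioo (l i) (l j)).Finite ∧
      (Ioo (l i) (l j)).ncard = Nat.count (fun u => l i < l u ∧ l u < l j) N := by
    intro i j N h
    have h1 : Ioo (l i) (l j) =
        ((((Finset.range N).filter (fun u => l i < l u ∧ l u < l j)).image l : Finset β) :
          Set β) := by
      ext x
      obtain ⟨u, rfl⟩ := l.surjective x
      rw [Finset.coe_image, l.injective.mem_set_image, Finset.mem_coe, Finset.mem_filter,
        Finset.mem_range, mem_Ioo]
      constructor
      · intro h2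
        refine ⟨?_, h2⟩
        by_contra h3
        exact h u ⟨not_lt.1 h3, h2⟩
      · exact fun h2 => h2.2
    rw [h1]
    refine ⟨Finset.finite_toSet _, ?_⟩
    rw [Set.ncard_coe_finset, Finset.card_image_of_injective _ l.injective,
      Nat.count_eq_card_filter_range]
  refine hmain.of_iff fun e => ?_
  constructor
  · rintro ⟨x, y, hxy, hf, hc, hx, hy⟩
    obtain ⟨i, rfl⟩ := l.surjective x
    obtain ⟨j, rfl⟩ := l.surjective y
    have hf' : {u | l i < l u ∧ l u < l j}.Finite := hf.preimage l.injective.injOn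
    obtain ⟨N, hN⟩ := hf'.bddAbove
    have h1 : ∀ u, ¬ (N + 1 ≤ u ∧ l i < l u ∧ l u < l j) := by
      rintro u ⟨h2, h3⟩
      have := hN h3
      omega
    refine ⟨((i, j), N + 1), ⟨hxy, ?_⟩, h1, fun z => hx _, fun z => hy _⟩
    rw [← (hcard i j (N + 1) h1).2]
    exact hc
  · rintro ⟨⟨⟨i, j⟩, N⟩, ⟨hxy, hc⟩, h1, hx, hy⟩
    obtain ⟨h2, h3⟩ := hcard i j N h1
    refine ⟨l i, l j, hxy, h2, h3.trans hc, fun z => ?_, fun z => ?_⟩
    · obtain ⟨u, rfl⟩ := l.surjective z; exact hx u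
    · obtain ⟨u, rfl⟩ := l.surjective z; exact hy u

end Pool.Agent.W5h78.IA
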