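import Mathlib
import Pool.Agent.W5h78.IA.Rec
import Pool.Agent.W5h78.IA.Block
import Pool.Agent.W5h78.IA.Pres

/-!
Isomorphisms of interval algebras and adjacency.
-/

namespace Pool.Agent.W5h78.IA

open Set symmDiff Pool.Agent.Helper941.IsoProb Pool.Agent.Helper941.Zeta Pool.Agent.Helper446

/-! ### the simple order -/

/-- the size of the blocks of the simple order -/
def b0 (_ : ℕ) : ℕ := 1

/-- the pieces of the simple order -/
def V0 (_ s : ℕ) : Prop := s = 0

/-- the simple order: every block has two points, the second of which starts a dense piece -/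
abbrev G0 : Type := El b0 V0

theorem hb0 (e : ℕ) : 0 < b0 e := Nat.one_pos

theorem h00 (e : ℕ) : V0 e 0 := rfl

theorem good0 : Good G0 := El.good hb0 h00 fun e => Or.inr fun h => by
  obtain ⟨t, h1, h2⟩ := h 0
  unfold V0 at h2
  omega

/-- the enumeration of the simple order -/
noncomputable def nu0 : ℕ → G0 := El.nu hb0 h00

theorem nu0_le : ComputablePred fun p : ℕ × ℕ => nu0 p.1 ≤ nu0 p.2 :=
  El.computable_nu_le hb0 h00 (Computable.const 1) (p_eq Computable.snd (Computable.const 0))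

instance : Infinite G0 := Infinite.of_injective (fun e : ℕ => (El.B e 0 (hb0 e) : G0))
  fun e e' h => by simpa using h

theorem nu0_B (e a : ℕ) : nu0 (Nat.pair 0 (Nat.pair e (Nat.pair 0 a))) = El.B e 0 (hb0 e) := by
  have key : ∀ n, El.cK n = 0 → El.cE n = e → El.cS n = 0 → nu0 n = El.B e 0 (hb0 e) := by
    intro n h1 h2 h3
    subst h2
    obtain ⟨h, h4⟩ := El.nu_B (b := b0) (V := V0) hb0 h00 h1
    have h5 : El.nS b0 V0 n = 0 := by
      have h6 : El.nS b0 V0 n < 1 := h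
      omega
    rw [nu0, h4]
    simp only [El.B.injEq, true_and]
    exact h5
  refine key _ ?_ ?_ ?_
  · simp [El.cK]
  · simp [El.cE]
  · simp [El.cS]

theorem nu0_R (e : ℕ) : nu0 (Nat.pair 1 (Nat.pair e (Nat.pair 0 (Nat.pair 0 0)))) =
    El.R e 0 (h00 e) 0 := by
  have key : ∀ n, ¬ El.cK n = 0 → El.cE n = e → El.cS n = 0 → El.cA n = 0 →
      nu0 n = El.R e 0 (h00 e) 0 := by
    intro n h1 h2 h3 h4
    subst h2
    obtain ⟨h, h5⟩ := El.nu_R (b := b0) (V := V0) hb0 h00 h1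
    have h6 : El.nS b0 V0 n = 0 := h
    have h7 : El.nA V0 n = 0 := by
      unfold El.nA
      rw [h4]
      split_ifs <;> rfl
    rw [nu0, h5]
    simp only [El.R.injEq, true_and]
    refine ⟨h6, ?_⟩
    rw [h7]
    simp
  refine key _ ?_ ?_ ?_ ?_
  · simp [El.cK]
  · simp [El.cE]
  · simp [El.cS]
  · simp [El.cA]

/-- the codes of the end points of the `k`-th atom -/
def at0 (k : ℕ) : List ℕ :=
  [Nat.pair 0 (Nat.pair k (Nat.pair 0 (Nat.pair 0 0))),
    Nat.pair 1 (Nat.pair k (Nat.pair 0 (Nat.pair 0 0)))]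

theorem computable_at0 : Computable at0 := by
  unfold at0
  fun_prop

theorem XL_at0 (k : ℕ) : XL nu0 (at0 k) = {(El.B k 0 (hb0 k) : G0)} := by
  have hc : (El.B k 0 (hb0 k) : G0) ⋖ El.R k 0 (h00 k) 0 :=
    El.cov_last (b := b0) (V := V0) (e := k) (j := 0) (s := 0) rfl rfl fun t ht => le_of_eq ht
  simp only [at0, XL, nu0_B, nu0_R]
  generalize (El.B k 0 (hb0 k) : G0) = p at hc ⊢
  generalize (El.R k 0 (h00 k) 0 : G0) = q at hc ⊢
  ext x
  rw [Set.mem_symmDiff, Set.mem_symmDiff]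
  simp only [mem_empty_iff_false, mem_Ici, mem_singleton_iff, false_and, false_or,
    not_false_eq_true, and_true]
  constructor
  · rintro (⟨h1, h2⟩ | ⟨h1, h2⟩)
    · exact absurd (hc.1.le.trans h1) h2
    · rcases h1.lt_or_eq with h3 | h3
      · exact absurd (not_le.1 h2) (hc.2 h3)
      · exact h3.symm
  · rintro rfl
    exact Or.inr ⟨le_rfl, not_le.2 hc.1⟩

theorem hasSucc0 (a : G0) (ha : a ∈ HasSucc G0) : ∃ k, a = El.B k 0 (hb0 k) := by
  obtain ⟨e, j, h, h1, -⟩ := (El.mem_hasSucc_iff (b := b0) (V := V0) h00 a).1 ha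
  have : j = 0 := Nat.lt_one_iff.1 h
  subst this
  exact ⟨e, h1⟩

/-- elements of the interval algebra are constant to the right of a point -/
theorem locally_const {γ : Type} [LinearOrder γ] [NoMaxOrder γ] {X : Set γ} (hX : IsIntal X)
    (a : γ) : ∃ y, a < y ∧ ∀ z, a ≤ z → z < y → (z ∈ X ↔ a ∈ X) := by
  refine IsIntal.induction (P := fun X => ∃ y, a < y ∧ ∀ z, a ≤ z → z < y → (z ∈ X ↔ a ∈ X))
    ?_ ?_ ?_ X hX
  · obtain ⟨y, hy⟩ := exists_gt a
    exact ⟨y, hy, fun z _ _ => Iff.rfl⟩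
  · obtain ⟨y, hy⟩ := exists_gt a
    exact ⟨y, hy, fun z _ _ => by simp⟩
  · rintro Y s ⟨y, hy, h⟩
    rcases le_or_gt s a with hs | hs
    · refine ⟨y, hy, fun z h1 h2 => ?_⟩
      rw [Set.mem_symmDiff, Set.mem_symmDiff, h z h1 h2, mem_Ici, mem_Ici]
      simp only [hs, hs.trans h1]
    · refine ⟨min y s, lt_min hy hs, fun z h1 h2 => ?_⟩
      rw [Set.mem_symmDiff, Set.mem_symmDiff, h z h1 (h2.trans_le (min_le_left _ _)), mem_Ici,
        mem_Ici]
      simp only [not_le.2 hs, not_le.2 (h2.trans_le (min_le_right _ _))]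

theorem singleton_hasSucc {γ : Type} [LinearOrder γ] [NoMaxOrder γ] {a : γ}
    (h : IsIntal ({a} : Set γ)) : a ∈ HasSucc γ := by
  obtain ⟨y, hy, h1⟩ := locally_const h a
  refine exists_succ_of_finite hy ?_
  convert Set.finite_empty
  ext z
  simp only [mem_Ioo, mem_empty_iff_false, iff_false]
  rintro ⟨h2, h3⟩
  have := (h1 z h2.le h3).2 rfl
  exact absurd this h2.ne'

theorem Good.noMax {γ : Type} [LinearOrder γ] (h : Good γ) : NoMaxOrder γ := ⟨fun a => by
  obtain ⟨r, -, hr⟩ := h.nomax a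
  exact ⟨r, hr⟩⟩

/-! ### isomorphisms -/

section iso

variable {β : Type} [LinearOrder β] {γ : Type} [LinearOrder γ] (ψ : intalg γ → Set β)
  (hinj : Function.Injective ψ) (hsup : ∀ a b, ψ (a ⊔ b) = ψ a ∪ ψ b)
  (hcompl : ∀ a, ψ aᶜ = (ψ a)ᶜ) (hran : ∀ X, (∃ a, ψ a = X) ↔ IsIntal X)

omit [LinearOrder β] in
include hsup hcompl in
theorem psi_inf (a b : intalg γ) : ψ (a ⊓ b) = ψ a ∩ ψ b := by
  have : a ⊓ b = (aᶜ ⊔ bᶜ)ᶜ := by rw [compl_sup, compl_compl, compl_compl]
  rw [this, hcompl, hsup, hcompl, hcompl, Set.compl_union, compl_compl, compl_compl]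

include hsup hran in
theorem psi_bot : ψ ⊥ = ∅ := by
  obtain ⟨b, hb⟩ := (hran ∅).2 isIntal_empty
  have h := hsup ⊥ b
  rw [bot_sup_eq, hb, Set.union_empty] at h
  exact h.symm

include hinj hsup hcompl hran in
/-- the image of an atom is a singleton -/
theorem psi_atom {a : γ} (ha : IsIntal ({a} : Set γ)) : ∃ v, ψ ⟨{a}, ha⟩ = {v} := by
  have hne : (ψ ⟨{a}, ha⟩).Nonempty := by
    rw [Set.nonempty_iff_ne_empty]
    intro h
    rw [← psi_bot ψ hsup hran] at h
    have h1 := congrArg Subtype.val (hinj h)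
    exact (Set.singleton_ne_empty a) h1
  have key : ∀ v w, v ∈ ψ ⟨{a}, ha⟩ → w ∈ ψ ⟨{a}, ha⟩ → ¬ v < w := by
    intro v w hv hw hlt
    obtain ⟨y, hy⟩ := (hran (Ici w)).2 (isIntal_Ici w)
    have h1 : ψ (⟨{a}, ha⟩ ⊓ y) = ψ ⟨{a}, ha⟩ ∩ Ici w := by rw [psi_inf ψ hsup hcompl, hy]
    by_cases h2 : a ∈ (y : Set γ)
    · have h3 : (⟨{a}, ha⟩ ⊓ y : intalg γ) = ⟨{a}, ha⟩ := by
        apply Subtype.ext
        rw [BooleanSubalgebra.val_inf]
        exact Set.inter_eq_left.2 (Set.singleton_subset_iff.2 h2)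
      rw [h3] at h1
      have h4 : v ∈ ψ ⟨{a}, ha⟩ ∩ Ici w := h1 ▸ hv
      exact absurd hlt (not_lt.2 h4.2)
    · have h3 : (⟨{a}, ha⟩ ⊓ y : intalg γ) = ⊥ := by
        apply Subtype.ext
        rw [BooleanSubalgebra.val_inf]
        exact Set.singleton_inter_eq_empty.2 h2
      rw [h3, psi_bot ψ hsup hran] at h1
      have h4 : w ∈ (∅ : Set β) := by rw [h1]; exact ⟨hw, le_rfl⟩
      exact h4
  obtain ⟨v, hv⟩ := hne
  refine ⟨v, Set.eq_singleton_iff_unique_mem.2 ⟨hv, fun w hw => ?_⟩⟩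
  exact le_antisymm (not_lt.1 (key v w hv hw)) (not_lt.1 (key w v hw hv))

include hinj hsup hcompl hran in
/-- an element with a successor is the image of an atom -/
theorem exists_atom {v w : β} (h : v ⋖ w) :
    ∃ (a : γ) (ha : IsIntal ({a} : Set γ)), ψ ⟨{a}, ha⟩ = {v} := by
  obtain ⟨y, hy⟩ := (hran {v}).2 (isIntal_singleton h)
  have hne : (y : Set γ).Nonempty := by
    rw [Set.nonempty_iff_ne_empty]
    intro h1
    have h2 : y = ⊥ := Subtype.ext h1
    rw [h2, psi_bot ψ hsup hran] at hy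
    exact (Set.singleton_ne_empty v) hy.symm
  have key : ∀ p q, p ∈ (y : Set γ) → q ∈ (y : Set γ) → ¬ p < q := by
    intro p q hp hq hlt
    have h1 : ψ (y ⊓ ⟨Ici q, isIntal_Ici q⟩) = {v} ∩ ψ ⟨Ici q, isIntal_Ici q⟩ := by
      rw [psi_inf ψ hsup hcompl, hy]
    by_cases h2 : v ∈ ψ ⟨Ici q, isIntal_Ici q⟩
    · rw [Set.inter_eq_left.2 (Set.singleton_subset_iff.2 h2), ← hy] at h1
      have h3 := congrArg Subtype.val (hinj h1)
      rw [BooleanSubalgebra.val_inf] at h3
      have h4 : p ∈ (y : Set γ) ∩ Ici q := by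
        have : (y : Set γ) ∩ Ici q = y := h3
        rw [this]; exact hp
      exact absurd hlt (not_lt.2 h4.2)
    · rw [Set.singleton_inter_eq_empty.2 h2, ← psi_bot ψ hsup hran] at h1
      have h3 := congrArg Subtype.val (hinj h1)
      rw [BooleanSubalgebra.val_inf] at h3
      have h4 : q ∈ (∅ : Set γ) := by
        have : (y : Set γ) ∩ Ici q = ∅ := h3
        rw [← this]; exact ⟨hq, le_rfl⟩
      exact h4
  obtain ⟨a, ha⟩ := hne
  have hya : (y : Set γ) = {a} := Set.eq_singleton_iff_unique_mem.2 ⟨ha, fun w hw =>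
    le_antisymm (not_lt.1 (key a w ha hw)) (not_lt.1 (key w a hw ha))⟩
  refine ⟨a, hya ▸ y.2, ?_⟩
  have : (⟨{a}, hya ▸ y.2⟩ : intalg γ) = y := Subtype.ext hya.symm
  rw [this, hy]

end iso

theorem mem_XL_iff {γ : Type} [LinearOrder γ] {ν : ℕ → γ} (l : List ℕ) (x : γ) :
    x ∈ XL ν l ↔ Odd ((l.filter (fun s => decide (ν s ≤ x))).length) := by
  induction l with
  | nil => simp [XL]
  | cons s l ih =>
    simp only [XL]
    rw [Set.mem_symmDiff, mem_Ici, ih, List.filter_cons]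
    by_cases h : ν s ≤ x
    · simp only [h, decide_true, if_true, List.length_cons, Nat.odd_add_one]
      simp
    · simp only [h, decide_false, Bool.false_eq_true, if_false]
      simp

/-- Adjacency is recursively enumerable in a copy whose interval algebra is computably isomorphic
to a computable Boolean algebra with recursively enumerable atoms. -/
theorem re_adj {β : Type} [LinearOrder β] (l : ℕ ≃ β)
    (hl : ComputablePred fun p : ℕ × ℕ => l p.1 ≤ l p.2) (c : ℕ → List ℕ × Bool)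
    (hc : Computable c) (A : ℕ → Set β)
    (hA : ∀ n : ℕ, A n = {x : β | Xor ((c n).2 = true)
      (Odd ((c n).1.filter (fun s => decide (l s ≤ x))).length)})
    (h1 : ∀ n, ∃ v, A n = {v}) (h2 : ∀ v w : β, v ⋖ w → ∃ n, v ∈ A n) :
    REPred fun p : ℕ × ℕ => l p.1 ⋖ l p.2 := by
  classical
  have hlt : ComputablePred fun p : ℕ × ℕ => l p.1 < l p.2 := by
    have := p_not (computablePred_comp hl (f := fun p : ℕ × ℕ => (p.2, p.1)) (by fun_prop))
    exact this.of_eq fun p => not_le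
  have hmem : ∀ i n, l i ∈ A n ↔ Xor ((c n).2 = true) (l i ∈ XL l (c n).1) := by
    intro i n
    rw [hA, mem_XL_iff]
    rfl
  have hmemc : ComputablePred fun p : ℕ × ℕ => l p.1 ∈ A p.2 := by
    have h3 : ComputablePred fun p : ℕ × ℕ => l p.1 ∈ XL l (c p.2).1 :=
      re_mem hl (l := fun p : ℕ × ℕ => (c p.2).1) (t := fun p => p.1) (by fun_prop) (by fun_prop)
    have h4 : ComputablePred fun p : ℕ × ℕ => (c p.2).2 = true := p_of_bool (by fun_prop)
    have h5 := p_or (p_and h4 (p_not h3)) (p_and h3 (p_not h4))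
    exact h5.of_eq fun p => (hmem p.1 p.2).symm
  have hre : REPred fun p : ℕ × ℕ => ∃ n, (l p.1 ∈ A n ∧ l p.1 < l p.2) ∧
      ∀ t ∈ (c n).1, ¬ (l p.1 < l t ∧ l t < l p.2) := by
    refine RE.exN (p := fun (p : ℕ × ℕ) n => (l p.1 ∈ A n ∧ l p.1 < l p.2) ∧
      ∀ t ∈ (c n).1, ¬ (l p.1 < l t ∧ l t < l p.2)) ?_
    refine RE.and (RE.and ?_ ?_) ?_
    · exact RE.of_comput (computablePred_comp hmemc
        (f := fun x : (ℕ × ℕ) × ℕ => (x.1.1, x.2)) (by fun_prop))
    · exact RE.of_comput (computablePred_comp hlt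
        (f := fun x : (ℕ × ℕ) × ℕ => (x.1.1, x.1.2)) (by fun_prop))
    · refine RE.all_mem (p := fun (x : (ℕ × ℕ) × ℕ) t => ¬ (l x.1.1 < l t ∧ l t < l x.1.2)) ?_
        (by fun_prop)
      refine RE.of_comput (p_not (p_and ?_ ?_))
      · exact computablePred_comp hlt
          (f := fun y : ((ℕ × ℕ) × ℕ) × ℕ => (y.1.1.1, y.2)) (by fun_prop)
      · exact computablePred_comp hlt
          (f := fun y : ((ℕ × ℕ) × ℕ) × ℕ => (y.2, y.1.1.2)) (by fun_prop)
  refine hre.of_eq fun p => ?_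
  obtain ⟨i, j⟩ := p
  constructor
  · rintro ⟨n, ⟨h3, h4⟩, h5⟩
    refine ⟨h4, fun x h6 h7 => ?_⟩
    obtain ⟨u, rfl⟩ := l.surjective x
    obtain ⟨v, hv⟩ := h1 n
    have h8 : l u ∈ A n := by
      rw [hmem] at h3 ⊢
      have h9 : l u ∈ XL l (c n).1 ↔ l i ∈ XL l (c n).1 := by
        refine mem_XL_congr fun s hs => ?_
        constructor
        · intro h10
          by_contra h11
          exact h5 s hs ⟨not_le.1 h11, h10.trans_lt h7⟩
        · intro h10
          exact h10.trans h6.le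
      rw [h9]; exact h3
    rw [hv] at h3 h8
    exact absurd h6 (by rw [h3, h8]; exact lt_irrefl v)
  · intro h3
    obtain ⟨n, hn⟩ := h2 _ _ h3
    exact ⟨n, ⟨hn, h3.1⟩, fun t _ h4 => h3.2 h4.1 h4.2⟩

/-- The negative answer. -/
theorem main :
    ¬ (∀ (β : Type) [LinearOrder β] (l : ℕ ≃ β),
      ComputablePred (fun p : ℕ × ℕ => l p.1 ≤ l p.2) →
      ∀ (α : Type) [BooleanAlgebra α] (e : ℕ ≃ α),
        Computable₂ (fun m n : ℕ => e.symm (e m ⊔ e n)) →
        Computable₂ (fun m n : ℕ => e.symm (e m ⊓ e n)) →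
        Computable (fun n : ℕ => e.symm (e n)ᶜ) →
        (∃ φ : α → Set β, Function.Injective φ ∧
            (∀ a b, φ (a ⊔ b) = φ a ∪ φ b) ∧
            (∀ a, φ aᶜ = (φ a)ᶜ) ∧
            Set.range φ = {X : Set β | ∃ S : Finset β, ∃ b : Bool,
              X = {x : β | Xor (b = true) (Odd (S.filter (fun s => s ≤ x)).card)}}) →
        ∃ l' : ℕ ≃ β, ComputablePred (fun p : ℕ × ℕ => l' p.1 ≤ l' p.2) ∧
          ∃ ψ : α → Set β, Function.Injective ψ ∧
            (∀ a b, ψ (a ⊔ b) = ψ a ∪ ψ b) ∧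
            (∀ a, ψ aᶜ = (ψ a)ᶜ) ∧
            Set.range ψ = {X : Set β | ∃ S : Finset β, ∃ b : Bool,
              X = {x : β | Xor (b = true) (Odd (S.filter (fun s => s ≤ x)).card)}} ∧
            ∃ c : ℕ → List ℕ × Bool, Computable c ∧
              ∀ n : ℕ, ψ (e n) = {x : β | Xor ((c n).2 = true)
                (Odd ((c n).1.filter (fun s => decide (l' s ≤ x))).length)}) := by
  intro H
  obtain ⟨V, hV, hV0, hVS⟩ := exists_V
  -- the order
  have hbc : Computable El.bs := by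
    unfold El.bs
    exact c_add (c_mul (c_const 2) c_id) (c_const 2)
  have hgood : Good (El El.bs V) := El.good El.hb hV0 fun e => Or.inl (by unfold El.bs; omega)
  have hle := El.computable_nu_le El.hb hV0 hbc hV
  have hsurj := El.nu_surjective (b := El.bs) (V := V) El.hb hV0
  have : Infinite (El El.bs V) := Infinite.of_injective
    (fun e : ℕ => (El.B e 0 (El.hb e) : El El.bs V)) fun e e' h => by simpa using h
  have heq : ComputablePred fun p : ℕ × ℕ => El.nu El.hb hV0 p.1 = El.nu El.hb hV0 p.2 := by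
    have h1 := p_and hle (computablePred_comp hle (f := fun p : ℕ × ℕ => (p.2, p.1)) (by fun_prop))
    exact h1.of_eq fun p => le_antisymm_iff.symm
  obtain ⟨l, g, hg, hlg⟩ := exists_bij _ hsurj heq
  have hl : ComputablePred fun p : ℕ × ℕ => l p.1 ≤ l p.2 := by
    have h1 := computablePred_comp hle (f := fun p : ℕ × ℕ => (g p.1, g p.2)) (by fun_prop)
    refine h1.of_eq fun p => ?_
    rw [hlg, hlg]
  have hcount : Countable (El El.bs V) := l.symm.injective.countable
  have hcount0 : Countable G0 :=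
    (El.nu_surjective (b := b0) (V := V0) hb0 h00).countable
  -- the algebra
  obtain ⟨e, hsup, hinf, hcompl, hat⟩ := exists_pres
    (El.nu_surjective (b := b0) (V := V0) hb0 h00) nu0_le
    (m := Nat.pair 0 (Nat.pair 0 (Nat.pair 0 (Nat.pair 0 0)))) (by
      intro x
      show nu0 _ ≤ x
      rw [nu0_B]
      obtain ⟨m, hm⟩ := good0.bot
      have h2 : m ≤ (El.B 0 0 (hb0 0) : G0) := hm _
      rcases h2.lt_or_eq with h3 | h3
      · exfalso
        cases m with
        | B e j h => rw [El.BB] at h3; omega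
        | R e s h q => rw [El.RB] at h3; omega
      · rw [← h3]; exact hm x)
  obtain ⟨h, hh⟩ := good0.transfer hgood
  have hφ : ∃ φ : intalg G0 → Set (El El.bs V), Function.Injective φ ∧
      (∀ a b, φ (a ⊔ b) = φ a ∪ φ b) ∧ (∀ a, φ aᶜ = (φ a)ᶜ) ∧
      Set.range φ = {X : Set (El El.bs V) | ∃ S : Finset (El El.bs V), ∃ b : Bool,
        X = {x | Xor (b = true) (Odd (S.filter (fun s => s ≤ x)).card)}} := by
    refine ⟨fun a => h '' (a : Set G0), ?_, ?_, ?_, ?_⟩
    · intro a b hab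
      exact Subtype.ext (h.injective.image_injective hab)
    · intro a b
      exact Set.image_union h (a : Set G0) (b : Set G0)
    · intro a
      exact Set.image_compl_eq h.bijective
    · ext X
      constructor
      · rintro ⟨a, rfl⟩
        exact (hh _).1 a.2
      · intro hX
        have h1 : h '' (h ⁻¹' X) = X := Set.image_preimage_eq X h.surjective
        exact ⟨⟨h ⁻¹' X, (hh _).2 (by rw [h1]; exact hX)⟩, h1⟩
  obtain ⟨l', hl', ψ, hψinj, hψsup, hψcompl, hψran, c, hc, hcψ⟩ :=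
    H (El El.bs V) l hl (intalg G0) e hsup hinf hcompl hφ
  -- the contradiction
  have hran : ∀ X, (∃ a, ψ a = X) ↔ IsIntal X := fun X => by
    have : X ∈ Set.range ψ ↔ IsIntal X := by rw [hψran]; rfl
    exact this
  have hn := hat at0 computable_at0
  have hadj : REPred fun p : ℕ × ℕ => l' p.1 ⋖ l' p.2 := by
    refine re_adj l' hl' (fun k => c (e.symm ⟨XL nu0 (at0 k), isIntal_XL _⟩)) (hc.comp hn)
      (fun k => ψ ⟨XL nu0 (at0 k), isIntal_XL _⟩) (fun k => ?_) (fun k => ?_) ?_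
    · have h1 := hcψ (e.symm ⟨XL nu0 (at0 k), isIntal_XL _⟩)
      rw [e.apply_symm_apply] at h1
      exact h1
    · have h1 : IsIntal ({(El.B k 0 (hb0 k) : G0)} : Set G0) := XL_at0 k ▸ isIntal_XL _
      obtain ⟨v, hv⟩ := psi_atom ψ hψinj hψsup hψcompl hran h1
      refine ⟨v, ?_⟩
      rw [← hv]
      exact congrArg ψ (Subtype.ext (XL_at0 k))
    · intro v w hvw
      obtain ⟨a, ha, hav⟩ := exists_atom ψ hψinj hψsup hψcompl hran hvw
      have : NoMaxOrder G0 := good0.noMax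
      obtain ⟨k, rfl⟩ := hasSucc0 a (singleton_hasSucc ha)
      refine ⟨k, ?_⟩
      have h2 : (⟨XL nu0 (at0 k), isIntal_XL _⟩ : intalg G0) = ⟨{El.B k 0 (hb0 k)}, ha⟩ :=
        Subtype.ext (XL_at0 k)
      show v ∈ ψ ⟨XL nu0 (at0 k), isIntal_XL _⟩
      rw [h2, hav]
      exact rfl
  have hS := sigma_blocks l' hl' hadj
  exact hVS (hS.of_iff fun e => (El.block_iff hV0 e).symm)

end Pool.Agent.W5h78.IA
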